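import Mathlib

/-!
# Every finite group embeds in a group generated by a 3-cycle and an `m`-cycle whose product is an
`m + 2`-cycle
-/

set_option autoImplicit false
set_option linter.unusedSectionVars false

open scoped Classical

noncomputable section

namespace Pool.Agent.H45.MG

open Equiv Equiv.Perm

/-- the points `A`, `B`, `s 0, …, s (m - 1)` -/
abbrev Pt (m : ℕ) := Option (Option (Fin m))

def ptA (m : ℕ) : Pt m := none
def ptB (m : ℕ) : Pt m := some none
def ptS {m : ℕ} (i : Fin m) : Pt m := some (some i)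

/-- the `m`-cycle `s 0 → s 1 → ⋯` -/
def rot (m : ℕ) : Perm (Pt m) := optionCongr (optionCongr (finRotate m))

theorem rot_A (m : ℕ) : rot m (ptA m) = ptA m := rfl
theorem rot_B (m : ℕ) : rot m (ptB m) = ptB m := rfl
theorem rot_S {m : ℕ} (i : Fin m) : rot m (ptS i) = ptS (finRotate m i) := rfl

/-- the 3-cycle `A → B → s 0 → A` -/
def three (m : ℕ) [NeZero m] : Perm (Pt m) := swap (ptA m) (ptB m) * swap (ptB m) (ptS 0)

variable {m : ℕ} [NeZero m]

theorem A_ne_B : ptA m ≠ ptB m := by simp [ptA, ptB]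
theorem A_ne_S (i : Fin m) : ptA m ≠ ptS i := by simp [ptA, ptS]
theorem B_ne_S (i : Fin m) : ptB m ≠ ptS i := by simp [ptB, ptS]

theorem three_A : three m (ptA m) = ptB m := by
  unfold three
  rw [Perm.mul_apply, swap_apply_of_ne_of_ne A_ne_B (A_ne_S 0), swap_apply_left]

theorem three_B : three m (ptB m) = ptS 0 := by
  unfold three
  rw [Perm.mul_apply, swap_apply_left, swap_apply_of_ne_of_ne (A_ne_S 0).symm (B_ne_S 0).symm]

theorem three_S0 : three m (ptS 0) = ptA m := by
  unfold three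
  rw [Perm.mul_apply, swap_apply_right, swap_apply_right]

theorem three_S {i : Fin m} (hi : i ≠ 0) : three m (ptS i) = ptS i := by
  unfold three
  have h1 : ptS i ≠ (ptS 0 : Pt m) := by
    intro h
    exact hi (by simpa [ptS] using h)
  rw [Perm.mul_apply, swap_apply_of_ne_of_ne (B_ne_S i).symm h1,
    swap_apply_of_ne_of_ne (A_ne_S i).symm (B_ne_S i).symm]

theorem isThreeCycle_three : IsThreeCycle (three m) := by
  unfold three
  rw [swap_comm (ptA m) (ptB m)]
  exact isThreeCycle_swap_mul_swap_same A_ne_B.symm (B_ne_S 0) (A_ne_S 0)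

theorem three_pow : three m ^ 3 = 1 := by
  have h := isThreeCycle_three (m := m)
  rw [← h.orderOf]
  exact pow_orderOf_eq_one _

theorem rot_pow_S (j : ℕ) (i : Fin m) : (rot m ^ j) (ptS i) = ptS ((finRotate m ^ j) i) := by
  induction j with
  | zero => rfl
  | succ j ih => rw [pow_succ', Perm.mul_apply, ih, rot_S, pow_succ', Perm.mul_apply]

/-- the class of a natural number -/
def cl (m : ℕ) [NeZero m] (j : ℕ) : Fin m := Fin.ofNat m j

theorem cl_val (j : ℕ) : (cl m j).1 = j % m := rfl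

theorem cl_zero : cl m 0 = 0 := by
  apply Fin.ext
  rw [cl_val, Nat.zero_mod]
  exact Fin.val_zero m

theorem cl_add (i : Fin m) (j : ℕ) : i + cl m (j + 1) = (i + cl m j) + 1 := by
  apply Fin.ext
  have h1 : ((1 : Fin m) : ℕ) = 1 % m := rfl
  rw [Fin.val_add, Fin.val_add, Fin.val_add, cl_val, cl_val, h1]
  have e1 : (i.1 + (j + 1) % m) ≡ (i.1 + (j + 1)) [MOD m] :=
    Nat.ModEq.add_left _ (Nat.mod_modEq _ _)
  have e2 : ((i.1 + j % m) % m + 1 % m) ≡ (i.1 + j) + 1 [MOD m] :=
    Nat.ModEq.add ((Nat.mod_modEq _ _).trans (Nat.ModEq.add_left _ (Nat.mod_modEq _ _)))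
      (Nat.mod_modEq _ _)
  exact e1.trans (by rw [← add_assoc]; exact e2.symm)

theorem cl_succ (j : ℕ) : cl m (j + 1) = cl m j + 1 := by
  have h := cl_add (m := m) 0 j
  rwa [zero_add, zero_add] at h

theorem cl_fin (i : Fin m) : cl m i.1 = i := by
  apply Fin.ext
  rw [cl_val, Nat.mod_eq_of_lt i.2]

theorem finRotate_pow_apply (j : ℕ) (i : Fin m) : (finRotate m ^ j) i = i + cl m j := by
  induction j with
  | zero => rw [cl_zero, add_zero]; rfl
  | succ j ih =>
    rw [pow_succ', Perm.mul_apply, ih, finRotate_apply, cl_add]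

theorem cl_eq_zero_iff (j : ℕ) : (cl m j = 0) ↔ m ∣ j := by
  rw [Fin.ext_iff, cl_val, Fin.val_zero]
  exact (Nat.dvd_iff_mod_eq_zero).symm

theorem rot_pow_C (j : ℕ) (h : (rot m ^ j) (ptS 0) = ptS 0) : m ∣ j := by
  rw [rot_pow_S, finRotate_pow_apply, zero_add] at h
  have h1 : cl m j = 0 := by simpa [ptS] using h
  exact (cl_eq_zero_iff j).mp h1

theorem rot_pow : rot m ^ m = 1 := by
  have h1 : ∀ j : ℕ, (rot m ^ j) (ptA m) = ptA m := by
    intro j
    induction j with
    | zero => rfl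
    | succ j ih => rw [pow_succ', Perm.mul_apply, ih, rot_A]
  have h2 : ∀ j : ℕ, (rot m ^ j) (ptB m) = ptB m := by
    intro j
    induction j with
    | zero => rfl
    | succ j ih => rw [pow_succ', Perm.mul_apply, ih, rot_B]
  ext1 x
  match x with
  | none => exact h1 m
  | some none => exact h2 m
  | some (some i) =>
    change (rot m ^ m) (ptS i) = ptS i
    rw [rot_pow_S, finRotate_pow_apply, (cl_eq_zero_iff m).mpr dvd_rfl, add_zero]

/-- the product, an `m + 2`-cycle -/
def big (m : ℕ) [NeZero m] : Perm (Pt m) := three m * rot m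

theorem big_A : big m (ptA m) = ptB m := by
  rw [big, Perm.mul_apply, rot_A, three_A]

theorem big_B : big m (ptB m) = ptS 0 := by
  rw [big, Perm.mul_apply, rot_B, three_B]

theorem big_S (i : Fin m) (h : i + 1 ≠ 0) : big m (ptS i) = ptS (i + 1) := by
  rw [big, Perm.mul_apply, rot_S, finRotate_apply, three_S h]

theorem big_last (i : Fin m) (h : i + 1 = 0) : big m (ptS i) = ptA m := by
  rw [big, Perm.mul_apply, rot_S, finRotate_apply, h, three_S0]

theorem big_pow (i : ℕ) (hi : i < m) : (big m ^ (i + 2)) (ptA m) = ptS (cl m i) := by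
  induction i with
  | zero =>
    rw [pow_succ', pow_one, Perm.mul_apply, big_A, big_B, cl_zero]
  | succ i ih =>
    have h1 : cl m i + 1 ≠ 0 := by
      intro h
      rw [← cl_succ] at h
      have h3 := (cl_eq_zero_iff (m := m) (i + 1)).mp h
      have := Nat.le_of_dvd (by omega) h3
      omega
    rw [show i + 1 + 2 = (i + 2) + 1 from rfl, pow_succ', Perm.mul_apply, ih (by omega), big_S _ h1,
      cl_succ]

theorem big_pow_A : (big m ^ (m + 2)) (ptA m) = ptA m := by
  have hm : 0 < m := Nat.pos_of_ne_zero (NeZero.ne m)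
  have h1 : big m ^ (m + 2) = big m * big m ^ ((m - 1) + 2) := by
    rw [← pow_succ']
    congr 1
    omega
  rw [h1, Perm.mul_apply, big_pow (m - 1) (by omega), big_last]
  rw [← cl_succ, cl_eq_zero_iff]
  have : m - 1 + 1 = m := by omega
  rw [this]

theorem big_trans (x : Pt m) : ∃ j : ℕ, (big m ^ j) (ptA m) = x := by
  match x with
  | none => exact ⟨0, rfl⟩
  | some none => exact ⟨1, by rw [pow_one]; exact big_A⟩
  | some (some i) =>
    refine ⟨i.1 + 2, ?_⟩
    rw [big_pow i.1 i.2, cl_fin]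
    rfl

theorem big_pow_eq : big m ^ (m + 2) = 1 := by
  ext1 x
  obtain ⟨j, rfl⟩ := big_trans x
  rw [← Perm.mul_apply, ← pow_add, add_comm, pow_add, Perm.mul_apply, big_pow_A, Perm.one_apply]

/-- the group generated by the two permutations -/
def HH (m : ℕ) [NeZero m] : Subgroup (Perm (Pt m)) := Subgroup.closure {three m, rot m}

theorem three_mem : three m ∈ HH m := Subgroup.subset_closure (by simp)
theorem rot_mem : rot m ∈ HH m := Subgroup.subset_closure (by simp)

theorem alt_le (hm : (m + 2).Prime) : alternatingGroup (Pt m) ≤ HH m := by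
  have hpt : MulAction.IsPretransitive (HH m) (Pt m) := by
    have hb : big m ∈ HH m := (HH m).mul_mem three_mem rot_mem
    have h1 : ∀ x : Pt m, ∃ g : HH m, g • ptA m = x := by
      intro x
      obtain ⟨j, hj⟩ := big_trans x
      exact ⟨⟨big m ^ j, (HH m).pow_mem hb j⟩, hj⟩
    refine ⟨fun x y => ?_⟩
    obtain ⟨g, hg⟩ := h1 x
    obtain ⟨h, hh⟩ := h1 y
    refine ⟨h * g⁻¹, ?_⟩
    rw [mul_smul, ← hg, inv_smul_smul, hh]
  have hp : MulAction.IsPreprimitive (HH m) (Pt m) := by
    apply MulAction.IsPreprimitive.of_prime_card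
    have : Nat.card (Pt m) = m + 2 := by
      rw [Nat.card_eq_fintype_card, Fintype.card_option, Fintype.card_option, Fintype.card_fin]
    rw [this]
    exact hm
  exact alternatingGroup_le_of_isPreprimitive_of_isThreeCycle_mem hp isThreeCycle_three three_mem

/-- the even embedding of a finite group -/
def evenHom (G : Type) [Group G] {m : ℕ} (ε : G ⊕ G ↪ Pt m) : G →* Perm (Pt m) where
  toFun g := (Perm.sumCongr (Equiv.mulLeft g) (Equiv.mulLeft g)).viaEmbedding ε
  map_one' := by
    have : (Perm.sumCongr (Equiv.mulLeft (1 : G)) (Equiv.mulLeft (1 : G))) = (1 : Perm (G ⊕ G)) := by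
      ext x
      rcases x with x | x <;> simp
    rw [this]
    exact map_one (Perm.viaEmbeddingHom ε)
  map_mul' g h := by
    have : (Perm.sumCongr (Equiv.mulLeft (g * h)) (Equiv.mulLeft (g * h))) =
        (Perm.sumCongr (Equiv.mulLeft g) (Equiv.mulLeft g) : Perm (G ⊕ G)) *
          Perm.sumCongr (Equiv.mulLeft h) (Equiv.mulLeft h) := by
      ext x
      rcases x with x | x <;> simp [mul_assoc]
    rw [this]
    exact map_mul (Perm.viaEmbeddingHom ε) _ _

theorem evenHom_inj (G : Type) [Group G] {m : ℕ} (ε : G ⊕ G ↪ Pt m) :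
    Function.Injective (evenHom G ε) := by
  intro g h hgh
  have h1 := congrArg (fun σ : Perm (Pt m) => σ (ε (Sum.inl 1))) hgh
  simp only [evenHom, MonoidHom.coe_mk, OneHom.coe_mk, Perm.viaEmbedding_apply] at h1
  have h2 := ε.injective h1
  simpa using h2

theorem evenHom_fix (G : Type) [Group G] {m : ℕ} (ε : G ⊕ G ↪ Pt m) (g : G) {x : Pt m}
    (hx : x ∉ Set.range ε) : evenHom G ε g x = x :=
  Perm.viaEmbedding_apply_of_notMem _ ε x hx

theorem evenHom_sign (G : Type) [Group G] [Finite G] {m : ℕ} (ε : G ⊕ G ↪ Pt m) (g : G) :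
    evenHom G ε g ∈ alternatingGroup (Pt m) := by
  haveI := Fintype.ofFinite G
  rw [Perm.mem_alternatingGroup]
  change Perm.sign ((Perm.sumCongr (Equiv.mulLeft g) (Equiv.mulLeft g)).viaEmbedding ε) = 1
  unfold Perm.viaEmbedding
  rw [Perm.sign_extendDomain, Perm.sign_sumCongr]
  rcases Int.units_eq_one_or (Perm.sign (Equiv.mulLeft g)) with h | h <;> rw [h] <;> rfl

/-- **Embedding.** -/
theorem exists_embedding (G : Type) [Group G] [Finite G] (N : ℕ) :
    ∃ (m : ℕ) (H : Type) (_ : Group H) (_ : Finite H) (X : Type) (_ : MulAction H X) (ι : G →* H)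
      (h₁ h₂ : H) (A B C : X), N < m ∧ Function.Injective ι ∧ A ≠ B ∧
      (∀ g, ι g • A = A ∧ ι g • B = B ∧ ι g • C = C) ∧ h₁ • A = B ∧ h₁ • B = C ∧
      h₂ • A = A ∧ h₂ • B = B ∧ (∀ j : ℕ, h₂ ^ j • C = C → m ∣ j) ∧ h₁ ^ 3 = 1 ∧ h₂ ^ m = 1 ∧
      (h₁ * h₂) ^ (m + 2) = 1 ∧ Subgroup.closure {h₁, h₂} = (⊤ : Subgroup H) ∧
      Nat.Coprime 42 m ∧ Nat.Coprime 42 (m + 2) ∧ Nat.Coprime m (m + 2) := by
  haveI := Fintype.ofFinite G
  obtain ⟨n, hn, hN, hmod⟩ := Nat.exists_prime_gt_modEq_one (k := 42)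
    (N + 2 * Fintype.card G + 10) (by norm_num)
  obtain ⟨m, rfl⟩ : ∃ m, n = m + 2 := ⟨n - 2, by omega⟩
  haveI : NeZero m := ⟨by omega⟩
  have hmod' : (m + 2) % 42 = 1 := by simpa [Nat.ModEq] using hmod
  have hcop : ∀ k, k % 2 = 1 → k % 3 ≠ 0 → k % 7 ≠ 0 → Nat.Coprime 42 k := by
    intro k h2 h3 h7
    have e : 42 = 2 * (3 * 7) := rfl
    rw [e]
    refine Nat.Coprime.mul_left ?_ (Nat.Coprime.mul_left ?_ ?_)
    · rw [Nat.Prime.coprime_iff_not_dvd Nat.prime_two]
      omega
    · rw [Nat.Prime.coprime_iff_not_dvd Nat.prime_three]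
      omega
    · rw [Nat.Prime.coprime_iff_not_dvd (by norm_num)]
      omega
  -- the embedding of the points
  have hcard : Fintype.card (G ⊕ G) ≤ Fintype.card {i : Fin m // i ≠ 0} := by
    rw [Fintype.card_sum]
    have : Fintype.card {i : Fin m // i ≠ 0} = m - 1 := by
      rw [Fintype.card_subtype_compl, Fintype.card_fin, Fintype.card_subtype_eq]
    rw [this]
    omega
  obtain ⟨e⟩ := Function.Embedding.nonempty_of_card_le hcard
  let ε : G ⊕ G ↪ Pt m := ⟨fun x => ptS (e x).1, by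
    intro x y h
    apply e.injective
    apply Subtype.ext
    simpa [ptS] using h⟩
  have hA : ptA m ∉ Set.range ε := by
    rintro ⟨x, hx⟩
    exact (A_ne_S _).symm hx
  have hB : ptB m ∉ Set.range ε := by
    rintro ⟨x, hx⟩
    exact (B_ne_S _).symm hx
  have hC : (ptS 0 : Pt m) ∉ Set.range ε := by
    rintro ⟨x, hx⟩
    apply (e x).2
    have : ptS (e x).1 = (ptS 0 : Pt m) := hx
    simpa [ptS] using this
  let ι : G →* HH m := (evenHom G ε).codRestrict (HH m)
    (fun g => alt_le hn (evenHom_sign G ε g))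
  refine ⟨m, HH m, inferInstance, inferInstance, Pt m, inferInstance, ι, ⟨three m, three_mem⟩,
    ⟨rot m, rot_mem⟩, ptA m, ptB m, ptS 0, by omega, ?_, A_ne_B, ?_, three_A, three_B, rot_A m,
    rot_B m, ?_, ?_, ?_, ?_, ?_, ?_, ?_, ?_⟩
  · intro g h hgh
    exact evenHom_inj G ε (congrArg Subtype.val hgh)
  · intro g
    exact ⟨evenHom_fix G ε g hA, evenHom_fix G ε g hB, evenHom_fix G ε g hC⟩
  · intro j hj
    exact rot_pow_C j hj
  · exact Subtype.ext three_pow
  · exact Subtype.ext rot_pow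
  · exact Subtype.ext big_pow_eq
  · rw [eq_top_iff]
    rintro ⟨x, hx⟩ -
    have h1 : Subgroup.map (HH m).subtype
        (Subgroup.closure {(⟨three m, three_mem⟩ : HH m), ⟨rot m, rot_mem⟩}) = HH m := by
      rw [MonoidHom.map_closure]
      congr 1
      rw [Set.image_pair]
      rfl
    rw [← h1] at hx
    obtain ⟨y, hy, hyx⟩ := hx
    have : y = ⟨x, by rw [← h1]; exact ⟨y, hy, hyx⟩⟩ := Subtype.ext hyx
    rw [← this]
    exact hy
  · exact hcop _ (by omega) (by omega) (by omega)
  · exact hcop _ (by omega) (by omega) (by omega)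
  · rw [Nat.coprime_comm, Nat.Prime.coprime_iff_not_dvd hn]
    intro h
    have := Nat.le_of_dvd (by omega) h
    omega

end Pool.Agent.H45.MG
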