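import Pool.Agent.H45.MG.Lev

/-!
# A quotient of the modular group above `K`
-/

set_option autoImplicit false
set_option linter.unusedSectionVars false
set_option linter.style.haveILetI false

open scoped Classical BigOperators

noncomputable section

namespace Pool.Agent.H45.MG

open Equiv

/-- the involution `z ↦ -1/z` on the projective line over the field with seven elements -/
def a0 : Perm (Fin 8) where
  toFun := ![7, 6, 3, 2, 5, 4, 1, 0]
  invFun := ![7, 6, 3, 2, 5, 4, 1, 0]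
  left_inv := by decide
  right_inv := by decide

/-- the element `z ↦ -1/(z+1)` of order three -/
def b0 : Perm (Fin 8) where
  toFun := ![6, 3, 2, 5, 4, 1, 7, 0]
  invFun := ![7, 5, 2, 1, 4, 3, 0, 6]
  left_inv := by decide
  right_inv := by decide

section gen

variable {K : Type} [Group K]

theorem left_pow_succ {X L : Type} [Group L] [MulAction L X] (w : Wth K X L) (k : ℕ) (z : X) :
    (w ^ (k + 1)).left z = w.left z * (w ^ k).left (w.right⁻¹ • z) := by
  rw [pow_succ', left_mul]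

/-- the big wreath product -/
abbrev U (K : Type) [Group K] := Wth K (Fin 8) (Perm (Fin 8))

variable (x y : K)

def fa : Fin 8 → K := ![y, 1, 1, 1, 1, 1, 1, y⁻¹]
def fb : Fin 8 → K := ![1, 1, x, 1, 1, 1, 1, 1]

def aU : U K := ⟨fa y, a0⟩
def bU : U K := ⟨fb x, b0⟩

theorem aU_sq : aU y ^ 2 = 1 := by
  rw [pow_two]
  apply SemidirectProduct.ext
  · ext z
    rw [left_mul]
    change fa y z * fa y (a0⁻¹ • z) = 1
    fin_cases z
    · exact mul_inv_cancel y
    · exact mul_one 1
    · exact mul_one 1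
    · exact mul_one 1
    · exact mul_one 1
    · exact mul_one 1
    · exact mul_one 1
    · exact inv_mul_cancel y
  · change a0 * a0 = 1
    decide

theorem bU_cube (hx : x ^ 3 = 1) : bU x ^ 3 = 1 := by
  rw [pow_succ, pow_two]
  apply SemidirectProduct.ext
  · ext z
    rw [left_mul, left_mul]
    change fb x z * fb x (b0⁻¹ • z) * fb x ((b0 * b0)⁻¹ • z) = 1
    have h1 : (1 : K) * 1 * 1 = 1 := by simp
    fin_cases z
    · exact h1
    · exact h1
    · change x * x * x = 1
      rw [← hx, pow_succ, pow_two]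
    · exact h1
    · exact h1
    · exact h1
    · exact h1
    · exact h1
  · change b0 * b0 * b0 = 1
    decide

/-- the product -/
def tU : U K := aU y * bU x

theorem tU_left : (tU x y).left = ![y, 1, 1, x, 1, 1, 1, y⁻¹] := by
  ext z
  unfold tU
  rw [left_mul]
  change fa y z * fb x (a0⁻¹ • z) = _
  fin_cases z
  · exact mul_one y
  · exact mul_one 1
  · exact mul_one 1
  · exact one_mul x
  · exact mul_one 1
  · exact mul_one 1
  · exact mul_one 1
  · exact mul_one y⁻¹

theorem tU_right : (tU x y).right = a0 * b0 := rfl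

theorem c0_inv : ∀ z : Fin 8,
    (a0 * b0)⁻¹ • z = (![6, 0, 1, 2, 3, 4, 5, 7] : Fin 8 → Fin 8) z := by decide

theorem tU_pow : tU x y ^ 7 =
    SemidirectProduct.inl ![y * x, y * x, y * x, x * y, x * y, x * y, x * y, (y⁻¹) ^ 7] := by
  apply SemidirectProduct.ext
  · ext z
    have h1 : ∀ (k : ℕ) (z : Fin 8), (tU x y ^ (k + 1)).left z =
        (![y, 1, 1, x, 1, 1, 1, y⁻¹] : Fin 8 → K) z *
          (tU x y ^ k).left ((![6, 0, 1, 2, 3, 4, 5, 7] : Fin 8 → Fin 8) z) := by
      intro k z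
      rw [left_pow_succ, tU_left, tU_right, c0_inv]
    have h0 : ∀ z, (tU x y ^ 0).left z = 1 := by
      intro z
      rw [pow_zero]
      rfl
    rw [SemidirectProduct.left_inl]
    rw [h1, h1, h1, h1, h1, h1, h1, h0]
    fin_cases z
    · change y * (1 * (1 * (1 * (x * (1 * (1 * 1)))))) = y * x
      simp
    · change 1 * (y * (1 * (1 * (1 * (x * (1 * 1)))))) = y * x
      simp
    · change 1 * (1 * (y * (1 * (1 * (1 * (x * 1)))))) = y * x
      simp
    · change x * (1 * (1 * (y * (1 * (1 * (1 * 1)))))) = x * y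
      simp
    · change 1 * (x * (1 * (1 * (y * (1 * (1 * 1)))))) = x * y
      simp
    · change 1 * (1 * (x * (1 * (1 * (y * (1 * 1)))))) = x * y
      simp
    · change 1 * (1 * (1 * (x * (1 * (1 * (y * 1)))))) = x * y
      simp
    · change y⁻¹ * (y⁻¹ * (y⁻¹ * (y⁻¹ * (y⁻¹ * (y⁻¹ * (y⁻¹ * 1)))))) = (y⁻¹) ^ 7
      group
  · rw [right_pow, tU_right, SemidirectProduct.right_inl]
    decide

theorem mem_of_coprime {J : Type} [Group J] (N : Subgroup J) {g : J} {k l : ℕ}
    (h : Nat.Coprime k l) (hk : g ^ k ∈ N) (hl : g ^ l ∈ N) : g ∈ N := by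
  obtain ⟨u, v, huv⟩ := Nat.isCoprime_iff_coprime.mpr h
  have e : g = (g ^ k) ^ u * (g ^ l) ^ v := by
    rw [← zpow_natCast, ← zpow_natCast, ← zpow_mul, ← zpow_mul, ← zpow_add, mul_comm (k : ℤ) u,
      mul_comm (l : ℤ) v, huv, zpow_one]
  rw [e]
  exact N.mul_mem (N.zpow_mem hk u) (N.zpow_mem hl v)

/-- the group `W` -/
def WG : Subgroup (U K) := Subgroup.closure {aU y, bU x}

theorem aU_mem : aU y ∈ WG x y := Subgroup.subset_closure (by simp)
theorem bU_mem : bU x ∈ WG x y := Subgroup.subset_closure (by simp)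

/-- the elements of `K` which occur in the `j`-th coordinate -/
def Nj (j : Fin 8) : Subgroup K :=
  (WG x y).comap ((SemidirectProduct.inl : (Fin 8 → K) →* U K).comp
    (MonoidHom.mulSingle (fun _ => K) j))

theorem mem_Nj (j : Fin 8) (k : K) :
    k ∈ Nj x y j ↔ (SemidirectProduct.inl (Pi.mulSingle j k) : U K) ∈ WG x y := Iff.rfl

theorem step {w : U K} (hw : w ∈ WG x y) {j : Fin 8} {k : K} (hk : k ∈ Nj x y j) :
    (w.left j)⁻¹ * k * w.left j ∈ Nj x y (w.right⁻¹ • j) := by
  rw [mem_Nj] at hk ⊢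
  have h1 := (WG x y).mul_mem ((WG x y).mul_mem ((WG x y).inv_mem hw) hk) hw
  rw [conj_inl] at h1
  convert h1 using 2
  ext z
  by_cases hz : z = w.right⁻¹ • j
  · subst hz
    rw [smul_inv_smul, Pi.mulSingle_eq_same, Pi.mulSingle_eq_same]
  · rw [Pi.mulSingle_eq_of_ne hz, Pi.mulSingle_eq_of_ne, mul_one, inv_mul_cancel]
    intro h
    exact hz (by rw [← h, inv_smul_smul])

theorem stepa (j j' : Fin 8) (hj : a0⁻¹ • j = j') (hf : fa y j = 1) : Nj x y j ≤ Nj x y j' := by
  intro k hk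
  have h := step x y (aU_mem x y) hk
  change (fa y j)⁻¹ * k * fa y j ∈ Nj x y (a0⁻¹ • j) at h
  rw [hf, hj, inv_one, one_mul, mul_one] at h
  exact h

theorem stepb (j j' : Fin 8) (hj : b0⁻¹ • j = j') (hf : fb x j = 1) : Nj x y j ≤ Nj x y j' := by
  intro k hk
  have h := step x y (bU_mem x y) hk
  change (fb x j)⁻¹ * k * fb x j ∈ Nj x y (b0⁻¹ • j) at h
  rw [hf, hj, inv_one, one_mul, mul_one] at h
  exact h

theorem N76 : Nj x y 7 ≤ Nj x y 6 := stepb x y 7 6 (by decide) rfl
theorem N61 : Nj x y 6 ≤ Nj x y 1 := stepa x y 6 1 (by decide) rfl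
theorem N15 : Nj x y 1 ≤ Nj x y 5 := stepb x y 1 5 (by decide) rfl
theorem N53 : Nj x y 5 ≤ Nj x y 3 := stepb x y 5 3 (by decide) rfl
theorem N54 : Nj x y 5 ≤ Nj x y 4 := stepa x y 5 4 (by decide) rfl
theorem N32 : Nj x y 3 ≤ Nj x y 2 := stepa x y 3 2 (by decide) rfl
theorem N23 : Nj x y 2 ≤ Nj x y 3 := stepa x y 2 3 (by decide) rfl
theorem N31 : Nj x y 3 ≤ Nj x y 1 := stepb x y 3 1 (by decide) rfl
theorem N16 : Nj x y 1 ≤ Nj x y 6 := stepa x y 1 6 (by decide) rfl
theorem N60 : Nj x y 6 ≤ Nj x y 0 := stepb x y 6 0 (by decide) rfl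
theorem N07 : Nj x y 0 ≤ Nj x y 7 := stepb x y 0 7 (by decide) rfl

theorem N71 : Nj x y 7 ≤ Nj x y 1 := (N76 x y).trans (N61 x y)
theorem N75 : Nj x y 7 ≤ Nj x y 5 := (N71 x y).trans (N15 x y)
theorem N73 : Nj x y 7 ≤ Nj x y 3 := (N75 x y).trans (N53 x y)
theorem N74 : Nj x y 7 ≤ Nj x y 4 := (N75 x y).trans (N54 x y)
theorem N72 : Nj x y 7 ≤ Nj x y 2 := (N73 x y).trans (N32 x y)
theorem N70 : Nj x y 7 ≤ Nj x y 0 := (N76 x y).trans (N60 x y)
theorem N27 : Nj x y 2 ≤ Nj x y 7 :=
  (((N23 x y).trans (N31 x y)).trans (N16 x y)).trans ((N60 x y).trans (N07 x y))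

theorem N7_le (j : Fin 8) : Nj x y 7 ≤ Nj x y j := by
  fin_cases j
  · exact N70 x y
  · exact N71 x y
  · exact N72 x y
  · exact N73 x y
  · exact N74 x y
  · exact N75 x y
  · exact N76 x y
  · exact le_refl _

theorem conj_x {k : K} (hk : k ∈ Nj x y 7) : x⁻¹ * k * x ∈ Nj x y 7 :=
  N27 x y (step x y (bU_mem x y) (N72 x y hk))

theorem conj_y {k : K} (hk : k ∈ Nj x y 7) : y * k * y⁻¹ ∈ Nj x y 7 := by
  have h := step x y (aU_mem x y) hk
  change (y⁻¹)⁻¹ * k * y⁻¹ ∈ Nj x y 0 at h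
  rw [inv_inv] at h
  exact N07 x y h

theorem Nj_top [Finite K] (hgen : Subgroup.closure {x, y} = (⊤ : Subgroup K)) {M n : ℕ}
    (hx : x ^ 3 = 1) (hy : y ^ M = 1) (hxy : (x * y) ^ n = 1) (c1 : Nat.Coprime 42 M)
    (c2 : Nat.Coprime 42 n) (c3 : Nat.Coprime M n) : Nj x y 7 = ⊤ := by
  have hyx : (y * x) ^ n = 1 := by
    have e : y * x = x⁻¹ * (x * y) * (x⁻¹)⁻¹ := by group
    rw [e, conj_pow, hxy]
    group
  -- `y` belongs to the group
  have h1 : (y⁻¹) ^ (7 * n) ∈ Nj x y 7 := by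
    rw [mem_Nj]
    have h2 : tU x y ^ (7 * n) ∈ WG x y :=
      (WG x y).pow_mem ((WG x y).mul_mem (aU_mem x y) (bU_mem x y)) _
    rw [pow_mul, tU_pow, ← map_pow] at h2
    convert h2 using 2
    ext z
    rw [Pi.pow_apply]
    fin_cases z
    · exact hyx.symm
    · exact hyx.symm
    · exact hyx.symm
    · exact hxy.symm
    · exact hxy.symm
    · exact hxy.symm
    · exact hxy.symm
    · change (y⁻¹) ^ (7 * n) = ((y⁻¹) ^ 7) ^ n
      rw [pow_mul]
  have h7 : Nat.Coprime 7 M := Nat.Coprime.coprime_dvd_left (by norm_num) c1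
  have hyN : y⁻¹ ∈ Nj x y 7 := by
    refine mem_of_coprime _ (Nat.Coprime.mul_left h7 c3.symm) h1 ?_
    rw [inv_pow, hy, inv_one]
    exact Subgroup.one_mem _
  have hyN' : y ∈ Nj x y 7 := by
    have := (Nj x y 7).inv_mem hyN
    rwa [inv_inv] at this
  -- the subgroup is normal
  have hnx : x⁻¹ ∈ Subgroup.normalizer (Nj x y 7 : Set K) := by
    apply Subgroup.mem_normalizer_fintype
    intro k hk
    rw [inv_inv]
    exact conj_x x y hk
  have hny : y ∈ Subgroup.normalizer (Nj x y 7 : Set K) :=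
    Subgroup.mem_normalizer_fintype fun k hk => conj_y x y hk
  have hnorm : (Nj x y 7).Normal := by
    rw [← Subgroup.normalizer_eq_top_iff, eq_top_iff, ← hgen, Subgroup.closure_le]
    rintro z (rfl | rfl)
    · have := Subgroup.inv_mem _ hnx
      rw [inv_inv] at this
      exact this
    · exact hny
  -- `x` belongs to the group
  have h3 : Nat.Coprime 3 n := Nat.Coprime.coprime_dvd_left (by norm_num) c2
  have h4 : x ^ n ∈ Nj x y 7 := by
    have h5 : ((x : K ⧸ Nj x y 7)) ^ n = 1 := by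
      have h6 : ((x * y : K) : K ⧸ Nj x y 7) = (x : K ⧸ Nj x y 7) := by
        rw [QuotientGroup.mk_mul, (QuotientGroup.eq_one_iff y).mpr hyN', mul_one]
      rw [← h6, ← QuotientGroup.mk_pow, hxy, QuotientGroup.mk_one]
    rw [← QuotientGroup.mk_pow, QuotientGroup.eq_one_iff] at h5
    exact h5
  have hxN : x ∈ Nj x y 7 := by
    refine mem_of_coprime _ h3 ?_ h4
    rw [hx]
    exact Subgroup.one_mem _
  rw [eq_top_iff, ← hgen, Subgroup.closure_le]
  rintro z (rfl | rfl)
  · exact hxN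
  · exact hyN'

theorem inl_mem (h : Nj x y 7 = ⊤) (F : Fin 8 → K) : (SemidirectProduct.inl F : U K) ∈ WG x y := by
  have h1 : F ∈ (WG x y).comap (SemidirectProduct.inl : (Fin 8 → K) →* U K) := by
    apply Subgroup.pi_mem_of_mulSingle_mem
    intro j
    have h2 : F j ∈ Nj x y 7 := by
      rw [h]
      exact Subgroup.mem_top _
    exact N7_le x y j h2
  exact h1

/-- the generators -/
def aG : WG x y := ⟨aU y, aU_mem x y⟩
def bG : WG x y := ⟨bU x, bU_mem x y⟩

theorem gen_W : Subgroup.closure {aG x y, bG x y} = ⊤ := by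
  rw [eq_top_iff]
  rintro ⟨z, hz⟩ -
  have h1 : Subgroup.map (WG x y).subtype
      (Subgroup.closure {aG x y, bG x y}) = WG x y := by
    rw [MonoidHom.map_closure]
    unfold WG
    congr 1
    rw [Set.image_pair]
    rfl
  have hz' := hz
  rw [← h1] at hz'
  obtain ⟨w, hw, hwz⟩ := hz'
  have : w = ⟨z, hz⟩ := Subtype.ext hwz
  rw [← this]
  exact hw

theorem tG_aux {M n : ℕ} (hy : y ^ M = 1) (hxy : (x * y) ^ n = 1) (hyx : (y * x) ^ n = 1)
    (z : Fin 8) : (((![y * x, y * x, y * x, x * y, x * y, x * y, x * y, (y⁻¹) ^ 7] :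
      Fin 8 → K) z) ^ n) ^ M = 1 := by
  have h1 : ((y * x) ^ n) ^ M = 1 := by rw [hyx, one_pow]
  have h2 : ((x * y) ^ n) ^ M = 1 := by rw [hxy, one_pow]
  fin_cases z
  · exact h1
  · exact h1
  · exact h1
  · exact h2
  · exact h2
  · exact h2
  · exact h2
  · change (((y⁻¹) ^ 7) ^ n) ^ M = 1
    have e : (((y⁻¹) ^ 7) ^ n) ^ M = ((y⁻¹) ^ M) ^ (7 * n) := by
      rw [← pow_mul, ← pow_mul, ← pow_mul]
      congr 1
      ring
    rw [e, inv_pow, hy, inv_one, one_pow]

theorem tG_pow {M n : ℕ} (hy : y ^ M = 1) (hxy : (x * y) ^ n = 1) :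
    (aG x y * bG x y) ^ (7 * (n * M)) = 1 := by
  have hyx : (y * x) ^ n = 1 := by
    have e : y * x = x⁻¹ * (x * y) * (x⁻¹)⁻¹ := by group
    rw [e, conj_pow, hxy]
    group
  apply Subtype.ext
  change tU x y ^ (7 * (n * M)) = 1
  rw [pow_mul, tU_pow, ← map_pow]
  have e : (![y * x, y * x, y * x, x * y, x * y, x * y, x * y, (y⁻¹) ^ 7] : Fin 8 → K) ^
      (n * M) = 1 := by
    ext z
    rw [Pi.pow_apply, pow_mul]
    exact tG_aux x y hy hxy hyx z
  rw [e, map_one]

end gen

/-- A group generated by `a`, `b` with `a² = b³ = (ab)ᴺ = 1`, `N` prime to `6`, is perfect. -/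
theorem perfect_of {W : Type} [Group W] {a b : W} {N : ℕ} (hgen : Subgroup.closure {a, b} = ⊤)
    (ha : a ^ 2 = 1) (hb : b ^ 3 = 1) (hab : (a * b) ^ N = 1) (hN : Nat.Coprime 6 N) :
    commutator W = ⊤ := by
  set f : W →* Abelianization W := Abelianization.of with hf
  have h1 : f a ^ N * f b ^ N = 1 := by
    rw [← mul_pow, ← map_mul, ← map_pow, hab, map_one]
  have ha2 : f a ^ 2 = 1 := by rw [← map_pow, ha, map_one]
  have hb3 : f b ^ 3 = 1 := by rw [← map_pow, hb, map_one]
  have h2 : Nat.Coprime 2 (N * 3) :=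
    Nat.Coprime.mul_right (Nat.Coprime.coprime_dvd_left (by norm_num) hN) (by norm_num)
  have h3 : Nat.Coprime 3 (N * 2) :=
    Nat.Coprime.mul_right (Nat.Coprime.coprime_dvd_left (by norm_num) hN) (by norm_num)
  have ha3 : f a ^ (N * 3) = 1 := by
    have h4 := congrArg (· ^ 3) h1
    simp only [mul_pow, one_pow, ← pow_mul] at h4
    rw [mul_comm N 3, pow_mul (f b), hb3, one_pow, mul_one] at h4
    rw [mul_comm N 3]
    exact h4
  have hb2 : f b ^ (N * 2) = 1 := by
    have h4 := congrArg (· ^ 2) h1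
    simp only [mul_pow, one_pow, ← pow_mul] at h4
    rw [mul_comm N 2, pow_mul (f a), ha2, one_pow, one_mul] at h4
    rw [mul_comm N 2]
    exact h4
  have hfa : f a = 1 := by
    have := mem_of_coprime (⊥ : Subgroup (Abelianization W)) h2 (g := f a)
      (by rw [ha2]; exact Subgroup.one_mem _) (by rw [ha3]; exact Subgroup.one_mem _)
    exact this
  have hfb : f b = 1 := by
    have := mem_of_coprime (⊥ : Subgroup (Abelianization W)) h3 (g := f b)
      (by rw [hb3]; exact Subgroup.one_mem _) (by rw [hb2]; exact Subgroup.one_mem _)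
    exact this
  rw [← Abelianization.ker_of, eq_top_iff, ← hgen, Subgroup.closure_le]
  rintro z (rfl | rfl)
  · exact hfa
  · exact hfb

section main

variable {G K : Type} [Group G] [Group K] [Finite K] {q : ℕ} (D : Dt G q K)

/-- the stabiliser -/
abbrev TP := ∀ j : Fin 8, D.T j

/-- the group above -/
abbrev WP := WG D.x D.y

theorem topD : Nj D.x D.y 7 = ⊤ := Nj_top D.x D.y D.gen D.hx D.hy D.hxy D.c1 D.c2 D.c3

/-- the embedding -/
def jP : TP D →* WP D where
  toFun F := ⟨SemidirectProduct.inl fun j => (F j : K), inl_mem D.x D.y (topD D) _⟩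
  map_one' := Subtype.ext (map_one (SemidirectProduct.inl : (Fin 8 → K) →* U K))
  map_mul' F F' := Subtype.ext
    (map_mul (SemidirectProduct.inl : (Fin 8 → K) →* U K) (fun j => (F j : K)) fun j => (F' j : K))

theorem jP_inj : Function.Injective (jP D) := by
  intro F F' h
  have h1 : (SemidirectProduct.inl (fun j => (F j : K)) : U K) =
      SemidirectProduct.inl fun j => (F' j : K) := congrArg Subtype.val h
  have h2 := SemidirectProduct.inl_injective h1
  ext j
  exact congrFun h2 j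

/-- the projection to `G` -/
def piP : TP D →* G := D.π.comp (Pi.evalMonoidHom (fun j => D.T j) 7)

/-- the section -/
def iP : G →* TP D := (MonoidHom.mulSingle (fun j => D.T j) 7).comp D.i

theorem piP_iP (g : G) : piP D (iP D g) = g := by
  change D.π (Pi.mulSingle (M := fun j => D.T j) 7 (D.i g) 7) = g
  rw [Pi.mulSingle_eq_same]
  exact D.hπ g

/-- the linear character -/
def LamP : TP D →* ℂ where
  toFun F := ∏ j, D.Λ j (F j)
  map_one' := Finset.prod_eq_one fun j _ => map_one _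
  map_mul' F F' := by
    rw [← Finset.prod_mul_distrib]
    exact Finset.prod_congr rfl fun j _ => map_mul _ _ _

theorem mem_V {F : TP D} (h : piP D F = 1) (j : Fin 8) : (F j : K) ∈ D.V := by
  by_cases hj : j = 7
  · subst hj
    exact (D.ker (F 7)).mp h
  · exact D.hTV j hj (F j).2

theorem piP_one {F : TP D} (h : ∀ j, (F j : K) ∈ D.V) : piP D F = 1 := (D.ker (F 7)).mpr (h 7)

theorem ker_P (F : TP D) (h : piP D F = 1) : F ^ q = 1 := by
  ext j
  exact D.exp _ (mem_V D h j)

/-- the conjugate -/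
def cj (w : WP D) (F : TP D) (h : piP D F = 1) : TP D := fun j =>
  ⟨(w.1.left (w.1.right • j))⁻¹ * F (w.1.right • j) * w.1.left (w.1.right • j),
    D.hVT j (D.norm _ _ (mem_V D h _))⟩

theorem cj_one (w : WP D) (F : TP D) (h : piP D F = 1) : piP D (cj D w F h) = 1 :=
  piP_one D fun _ => D.norm _ _ (mem_V D h _)

theorem cj_eq (w : WP D) (F : TP D) (h : piP D F = 1) :
    jP D (cj D w F h) = w⁻¹ * jP D F * w := by
  apply Subtype.ext
  change _ = w.1⁻¹ * SemidirectProduct.inl (fun j => (F j : K)) * w.1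
  rw [conj_inl]
  rfl

theorem single_V (s : Fin 8) (v : K) (hv : v ∈ D.V) :
    piP D (Pi.mulSingle (M := fun j => D.T j) s ⟨v, D.hVT s hv⟩) = 1 := by
  apply piP_one
  intro j
  by_cases hj : j = s
  · subst hj
    rw [Pi.mulSingle_eq_same]
    exact hv
  · rw [Pi.mulSingle_eq_of_ne hj]
    exact D.V.one_mem

theorem moves_P (w : WP D) (hw : w ∉ (jP D).range) : ∃ k k' : TP D, piP D k = 1 ∧ piP D k' = 1 ∧
    jP D k' = w⁻¹ * jP D k * w ∧ LamP D k ≠ LamP D k' := by
  by_contra hcon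
  push Not at hcon
  apply hw
  have key : ∀ s : Fin 8, s = w.1.right⁻¹ • s ∧ w.1.left s ∈ D.T (w.1.right⁻¹ • s) := by
    intro s
    apply D.sep
    intro v hv
    set k : TP D := Pi.mulSingle (M := fun j => D.T j) s ⟨v, D.hVT s hv⟩ with hk
    have hk1 : piP D k = 1 := single_V D s v hv
    have h1 := hcon k (cj D w k hk1) hk1 (cj_one D w k hk1) (cj_eq D w k hk1)
    have h2 : LamP D k = D.Λ s ⟨v, D.hVT s hv⟩ := by
      change ∏ j, D.Λ j (k j) = _
      rw [Finset.prod_eq_single s]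
      · rw [hk, Pi.mulSingle_eq_same]
      · intro j _ hj
        rw [hk, Pi.mulSingle_eq_of_ne hj, map_one]
      · intro h
        exact absurd (Finset.mem_univ s) h
    have h3 : LamP D (cj D w k hk1) = D.Λ (w.1.right⁻¹ • s) ⟨(w.1.left s)⁻¹ * v * w.1.left s,
        D.hVT _ (D.norm _ _ hv)⟩ := by
      change ∏ j, D.Λ j (cj D w k hk1 j) = _
      rw [Finset.prod_eq_single (w.1.right⁻¹ • s)]
      · congr 1
        apply Subtype.ext
        change (w.1.left (w.1.right • w.1.right⁻¹ • s))⁻¹ * (k (w.1.right • w.1.right⁻¹ • s) : K) *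
          w.1.left (w.1.right • w.1.right⁻¹ • s) = (w.1.left s)⁻¹ * v * w.1.left s
        rw [smul_inv_smul, hk, Pi.mulSingle_eq_same]
      · intro j _ hj
        have h4 : w.1.right • j ≠ s := by
          intro h
          exact hj (by rw [← h, inv_smul_smul])
        have h5 : cj D w k hk1 j = 1 := by
          apply Subtype.ext
          change (w.1.left (w.1.right • j))⁻¹ * (k (w.1.right • j) : K) *
            w.1.left (w.1.right • j) = 1
          rw [hk, Pi.mulSingle_eq_of_ne h4, Subgroup.coe_one, mul_one, inv_mul_cancel]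
        rw [h5, map_one]
      · intro h
        exact absurd (Finset.mem_univ _) h
    rw [← h2, ← h3]
    exact h1
  have hr : w.1.right = 1 := by
    ext1 s
    have h1 := (key s).1
    have h2 : w.1.right • s = s := by
      conv_lhs => rw [h1]
      rw [smul_inv_smul]
    exact h2
  refine ⟨fun s => ⟨w.1.left s, by
    have h1 := (key s).2
    rwa [← (key s).1] at h1⟩, ?_⟩
  apply Subtype.ext
  apply SemidirectProduct.ext
  · rfl
  · exact hr.symm

end main

/-- **Every finite group over a finite perfect quotient of the modular group.** -/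
theorem exists_top (G : Type) [Group G] [Finite G] (p : ℕ) :
    ∃ (q : ℕ) (_ : Fact q.Prime) (_ : p < q) (W T : Type) (_ : Group W) (_ : Finite W)
      (_ : Group T) (_ : Finite T) (a b : W) (π : T →* G) (i : G →* T) (j : T →* W) (Λ : T →* ℂ),
      Subgroup.closure {a, b} = ⊤ ∧ a ^ 2 = 1 ∧ b ^ 3 = 1 ∧ commutator W = ⊤ ∧
      (∀ g, π (i g) = g) ∧ Function.Injective j ∧
      (∀ (x : W) (k : T), π k = 1 → ∃ k' : T, π k' = 1 ∧ j k' = x⁻¹ * j k * x) ∧
      (∀ k : T, π k = 1 → k ^ q = 1) ∧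
      (∀ x : W, x ∉ j.range →
        ∃ k k' : T, π k = 1 ∧ π k' = 1 ∧ j k' = x⁻¹ * j k * x ∧ Λ k ≠ Λ k') := by
  obtain ⟨q, hq, hpq, K, _, _, ⟨D⟩⟩ := exists_Dt G p
  have c6 : ∀ {k : ℕ}, Nat.Coprime 42 k → Nat.Coprime 6 k := fun h =>
    Nat.Coprime.coprime_dvd_left (by norm_num) h
  refine ⟨q, hq, hpq, WP D, TP D, inferInstance, inferInstance, inferInstance, inferInstance,
    aG D.x D.y, bG D.x D.y, piP D, iP D, jP D, LamP D, gen_W D.x D.y,
    Subtype.ext (aU_sq D.y), Subtype.ext (bU_cube D.x D.hx), ?_, piP_iP D, jP_inj D, ?_, ker_P D,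
    moves_P D⟩
  · exact perfect_of (gen_W D.x D.y) (Subtype.ext (aU_sq D.y)) (Subtype.ext (bU_cube D.x D.hx))
      (tG_pow D.x D.y D.hy D.hxy)
      (Nat.Coprime.mul_right (by norm_num) (Nat.Coprime.mul_right (c6 D.c2) (c6 D.c1)))
  · intro w F hF
    exact ⟨cj D w F hF, cj_one D w F hF, cj_eq D w F hF⟩

end Pool.Agent.H45.MG
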