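import Pool.Agent.H45.MG.Gen
import Pool.Agent.H45.MG.Top

/-!
# Blocks over finite perfect quotients of the modular group
-/

set_option autoImplicit false
set_option linter.unusedSectionVars false
set_option linter.style.haveILetI false

open scoped BigOperators Classical

noncomputable section

namespace Pool.Agent.H45.MG

open Pool.Agent.K4H11.FR
open Pool.Agent.Q90.WR Pool.Agent.H254R3.IN Pool.Agent.Q259.BW Pool.Agent.Q288.MB
open Pool.Agent.Y63.KR (alternatingSum)

theorem ker_prime {T G : Type} [Group T] [Finite T] [Group G] (π : T →* G) {p q : ℕ}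
    [hp : Fact p.Prime] [hq : Fact q.Prime] (hpq : p < q) (hk : ∀ t, π t = 1 → t ^ q = 1) :
    ¬ p ∣ Nat.card π.ker := by
  have h1 : IsPGroup q π.ker := by
    intro t
    refine ⟨1, ?_⟩
    rw [pow_one]
    exact Subtype.ext (hk t.1 t.2)
  obtain ⟨k, hk⟩ := IsPGroup.iff_card.mp h1
  rw [hk]
  intro h
  have h2 := (Nat.prime_dvd_prime_iff_eq hp.out hq.out).mp (hp.out.dvd_of_dvd_pow h)
  omega

/-- **Realisation.** -/
theorem awc_modular {p : ℕ} [hp : Fact p.Prime] {O : ValuationSubring ℂ}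
    (hpO : (p : ℂ) ∈ O.nonunits) {G : Type} [Group G] {B : Set (G → ℂ)} (hB : AdmB p O G B) :
    ∃ (W : Type) (_ : Group W) (B' : Set (W → ℂ)),
      (Finite W ∧ commutator W = ⊤ ∧
        ∃ a b : W, a ^ 2 = 1 ∧ b ^ 3 = 1 ∧ Subgroup.closure {a, b} = ⊤) ∧
      AdmB p O W B' ∧
      (∀ D, IsDefectGroup p O B D → ∃ D', IsDefectGroup p O B' D' ∧ Nonempty (D' ≃* D)) ∧
      (∀ Q : ℂ → ℕ → Prop, QOK p Q →
        alternatingSum p W (fun K => (cntQ O Q B' K : ℤ)) =
          alternatingSum p G (fun K => (cntQ O Q B K : ℤ))) := by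
  have := hB.fin
  obtain ⟨q, hq, hpq, W, T, _, _, _, _, a, b, π, i, j, Λ, hgen, ha, hb, hperf, hπ, hj, h2, hk, hM⟩ :=
    exists_top G p
  obtain ⟨B', h1, h3, h4⟩ := awc_gen hπ hj h2 (ker_prime π hpq hk) hM hpO hB
  exact ⟨W, inferInstance, B', ⟨inferInstance, hperf, a, b, ha, hb, hgen⟩, h1, h3, h4⟩

end Pool.Agent.H45.MG
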