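import Pool.Graph.R_pool_sql_team_seeded_c8625f6e.K4H11.FR.Awc

/-!
# Realisation of blocks of `G` over a stabiliser of a linear character
-/

set_option autoImplicit false
set_option linter.unusedSectionVars false
set_option linter.style.haveILetI false

open scoped BigOperators Classical

noncomputable section

namespace Pool.Agent.H45.MG

open Pool.Agent.K4H11.FR
open Pool.Agent.Q90.WR Pool.Agent.H254R3.IN Pool.Agent.Q259.BW Pool.Agent.Q288.MB
open Pool.Agent.Y63.KR (alternatingSum)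
open Pool.Agent.K4H11.AM

section

variable {G T W : Type} [Group G] [Group T] [Group W] {π : T →* G} {i : G →* T}
  (hπ : ∀ g, π (i g) = g) {j : T →* W} (hj : Function.Injective j)
  (h2 : ∀ (x : W) (k : T), π k = 1 → ∃ k' : T, π k' = 1 ∧ j k' = x⁻¹ * j k * x)
  {p : ℕ} [hp : Fact p.Prime] (hK : ¬ p ∣ Nat.card π.ker) {Λ : T →* ℂ} (hM : Moves π j Λ)

include hK hj in
theorem ker_disj [Finite T] {P : Subgroup W} (hP : IsPGroup p P) {k : T} (hk : π k = 1)
    (hkP : j k ∈ P) : k = 1 := by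
  obtain ⟨n, hn⟩ := hP ⟨_, hkP⟩
  have h1 : orderOf k ∣ p ^ n := by
    apply orderOf_dvd_of_pow_eq_one
    apply hj
    rw [map_pow, map_one]
    exact congrArg Subtype.val hn
  have h3 : orderOf k ∣ Nat.card π.ker := by
    have h5 := orderOf_dvd_natCard (⟨k, hk⟩ : π.ker)
    rw [← Subgroup.orderOf_coe] at h5
    exact h5
  have h4 : Nat.Coprime (p ^ n) (Nat.card π.ker) :=
    Nat.Coprime.pow_left n ((Nat.Prime.coprime_iff_not_dvd hp.out).mpr hK)
  exact orderOf_eq_one_iff.mp (Nat.eq_one_of_dvd_coprimes h4 h1 h3)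

include hπ hK hj h2 hM in
theorem core_gen [Finite T] (hG : ∀ P : Subgroup G, P.Normal → IsPGroup p P → P = ⊥)
    (P : Subgroup W) (hn : P.Normal) (hP : IsPGroup p P) : P = ⊥ := by
  have hr : ∀ x ∈ P, x ∈ j.range := by
    intro x hx
    by_contra hxj
    obtain ⟨k, k', hk, hk', e, hne⟩ := hM x hxj
    apply hne
    have h4 : j (k⁻¹ * k') ∈ P := by
      rw [map_mul, map_inv, e]
      have e2 : (j k)⁻¹ * (x⁻¹ * j k * x) = ((j k)⁻¹ * x⁻¹ * ((j k)⁻¹)⁻¹) * x := by group
      rw [e2]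
      exact P.mul_mem (hn.conj_mem _ (P.inv_mem hx) _) hx
    have h5 : k⁻¹ * k' = 1 := ker_disj hj hK hP (by rw [map_mul, map_inv, hk, hk']; simp) h4
    rw [inv_mul_eq_one.mp h5]
  set P' : Subgroup T := P.comap j with hP'
  have hPn : P'.Normal := hn.comap j
  have hPp : IsPGroup p P' := hP.comap_of_injective j hj
  have hsurj : Function.Surjective π := fun g => ⟨i g, hπ g⟩
  have h3 : P'.map π = ⊥ := hG _ (hPn.map π hsurj) (hPp.map π)
  rw [Subgroup.eq_bot_iff_forall]
  intro x hx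
  obtain ⟨t, rfl⟩ := hr x hx
  have h4 : π t ∈ P'.map π := ⟨t, hx, rfl⟩
  rw [h3, Subgroup.mem_bot] at h4
  rw [ker_disj hj hK hP h4 hx, map_one]

end

/-- **Realisation**: the sums of a block of `G` are those of a block of `W`. -/
theorem awc_gen {G T W : Type} [Group G] [Group T] [Group W] [Finite T] [Finite W] {π : T →* G}
    {i : G →* T} (hπ : ∀ g, π (i g) = g) {j : T →* W} (hj : Function.Injective j)
    (h2 : ∀ (x : W) (k : T), π k = 1 → ∃ k' : T, π k' = 1 ∧ j k' = x⁻¹ * j k * x)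
    {p : ℕ} [hp : Fact p.Prime] (hK : ¬ p ∣ Nat.card π.ker) {Λ : T →* ℂ} (hM : Moves π j Λ)
    {O : ValuationSubring ℂ} (hpO : (p : ℂ) ∈ O.nonunits) {B : Set (G → ℂ)}
    (hB : AdmB p O G B) :
    ∃ B' : Set (W → ℂ), AdmB p O W B' ∧
      (∀ D, IsDefectGroup p O B D → ∃ D', IsDefectGroup p O B' D' ∧ Nonempty (D' ≃* D)) ∧
      (∀ Q : ℂ → ℕ → Prop, QOK p Q →
        alternatingSum p W (fun K => (cntQ O Q B' K : ℤ)) =
          alternatingSum p G (fun K => (cntQ O Q B K : ℤ))) := by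
  haveI := hB.fin
  letI : Fintype G := Fintype.ofFinite _
  letI : Fintype T := Fintype.ofFinite _
  letI : Fintype W := Fintype.ofFinite _
  have hbl := hB.block
  have ho : Orth j (twS π Λ B) := orth_tw hM B
  have hb := twS_block hπ hK hpO Λ hbl
  have hdef : ∀ D, IsDefectGroup p O B D → IsDefectGroup p O
      (indS j (twS π Λ B)) ((D.map i).map j) := fun D hD =>
    indS_defect hj hpO ho hb (twS_defect hπ hK hpO Λ hbl hD)
  have hequiv : ∀ D : Subgroup G, Nonempty ((D.map i).map j ≃* D) := fun D =>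
    ⟨((D.equivMapOfInjective i (sec_inj hπ)).trans
      ((D.map i).equivMapOfInjective j hj)).symm⟩
  refine ⟨indS j (twS π Λ B),
    ⟨inferInstance, core_gen hπ hj h2 hK hM hB.core, indS_block hj ho hb, ?_⟩,
    fun D hD => ⟨_, hdef D hD, hequiv D⟩, fun Q hQ => ?_⟩
  · obtain ⟨D, hD, hne⟩ := hB.defect
    refine ⟨_, hdef D hD, fun h => hne ?_⟩
    exact (Subgroup.map_eq_bot_iff_of_injective D (sec_inj hπ)).mp
      ((Subgroup.map_eq_bot_iff_of_injective _ hj).mp h)
  · exact alt_eq hπ hj h2 hpO hK Λ hM hbl hQ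

end Pool.Agent.H45.MG
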