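import Mathlib

/-!
# Wreath products `(X → K) ⋊ L`
-/

set_option autoImplicit false
set_option linter.unusedSectionVars false
set_option linter.style.haveILetI false

open scoped Classical BigOperators

noncomputable section

namespace Pool.Agent.H45.MG

section basics

variable (K X L : Type) [Group K] [Group L] [MulAction L X]

/-- the action of `L` on the functions `X → K` -/
def sh : L →* MulAut (X → K) where
  toFun l :=
    { toFun := fun f x => f (l⁻¹ • x)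
      invFun := fun f x => f (l • x)
      left_inv := fun f => by ext x; simp
      right_inv := fun f => by ext x; simp
      map_mul' := fun _ _ => rfl }
  map_one' := by ext f x; simp
  map_mul' l l' := by ext f x; simp [mul_smul]

/-- the wreath product -/
abbrev Wth := (X → K) ⋊[sh K X L] L

variable {K X L}

theorem sh_apply (l : L) (f : X → K) (x : X) : sh K X L l f x = f (l⁻¹ • x) := rfl

theorem left_mul (w w' : Wth K X L) (x : X) :
    (w * w').left x = w.left x * w'.left (w.right⁻¹ • x) := rfl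

theorem left_one (x : X) : (1 : Wth K X L).left x = 1 := rfl

theorem conj_inl (w : Wth K X L) (F : X → K) :
    w⁻¹ * SemidirectProduct.inl F * w = SemidirectProduct.inl (fun x =>
      (w.left (w.right • x))⁻¹ * F (w.right • x) * w.left (w.right • x)) := by
  rw [mul_assoc, inv_mul_eq_iff_eq_mul]
  apply SemidirectProduct.ext
  · ext x
    rw [left_mul, left_mul]
    simp only [SemidirectProduct.left_inl, SemidirectProduct.right_inl, inv_one, one_smul,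
      smul_inv_smul]
    group
  · simp

theorem conj_inl' (w : Wth K X L) (F : X → K) :
    w * SemidirectProduct.inl F * w⁻¹ = SemidirectProduct.inl (fun x =>
      w.left x * F (w.right⁻¹ • x) * (w.left x)⁻¹) := by
  rw [mul_inv_eq_iff_eq_mul]
  apply SemidirectProduct.ext
  · ext x
    rw [left_mul, left_mul]
    simp only [SemidirectProduct.left_inl, SemidirectProduct.right_inl, inv_one, one_smul]
    group
  · simp

theorem right_pow (w : Wth K X L) (k : ℕ) : (w ^ k).right = w.right ^ k :=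
  map_pow (SemidirectProduct.rightHom : Wth K X L →* L) w k

instance instFin [Finite K] [Finite X] [Finite L] : Finite (Wth K X L) :=
  Finite.of_equiv _ (SemidirectProduct.equivProd (φ := sh K X L)).symm

end basics

section comm

variable {A X L : Type} [CommGroup A] [Group L] [MulAction L X]

theorem left_pow (w : Wth A X L) (k : ℕ) (x : X) :
    (w ^ k).left x = ∏ i ∈ Finset.range k, w.left ((w.right ^ i)⁻¹ • x) := by
  induction k with
  | zero => simp [left_one]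
  | succ k ih =>
    rw [pow_succ, left_mul, ih, Finset.prod_range_succ, right_pow]

theorem conj_inl_comm (w : Wth A X L) (F : X → A) :
    w⁻¹ * SemidirectProduct.inl F * w = SemidirectProduct.inl (fun x => F (w.right • x)) := by
  rw [conj_inl]
  congr 1
  ext x
  rw [mul_comm, mul_inv_cancel_left]

end comm

/-! ### The separating element -/

section sep

variable {H Y : Type} [Group H] [MulAction H Y] (R : Subgroup H) (h₁ h₂ : H) (m q : ℕ)

/-- indicator of a coset -/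
def dl (g : H) (ω : H ⧸ R) : ZMod q := if ω = (g : H ⧸ R) then 1 else 0

/-- the function `∑ δ_{h₂^i R} - ∑ δ_{h₂^(i+1) h₁ R}` -/
def ff (ω : H ⧸ R) : ZMod q :=
  ∑ i ∈ Finset.range m, (dl R q 1 ((h₂ ^ i)⁻¹ • ω) - dl R q (h₂ * h₁) ((h₂ ^ i)⁻¹ • ω))

variable {R h₁ h₂ m q}

theorem dl_smul (g t h : H) : dl R q g (t⁻¹ • (h : H ⧸ R)) = if g⁻¹ * (t⁻¹ * h) ∈ R then 1 else 0 := by
  unfold dl
  congr 1
  rw [eq_iff_iff, eq_comm, ← QuotientGroup.eq]
  rfl

variable {A B C : Y} (hAB : A ≠ B) (hR : ∀ r ∈ R, r • A = A ∧ r • B = B ∧ r • C = C)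
  (h1A : h₁ • A = B) (h1B : h₁ • B = C) (h2A : h₂ • A = A) (h2B : h₂ • B = B)
  (h2C : ∀ j : ℕ, h₂ ^ j • C = C → m ∣ j) (hm : h₂ ^ m = 1)

theorem pow_fix {Z : Type} [MulAction H Z] {h : H} {z : Z} (hz : h • z = z) (j : ℕ) : h ^ j • z = z := by
  induction j with
  | zero => rw [pow_zero, one_smul]
  | succ j ih => rw [pow_succ, mul_smul, hz, ih]

theorem sum_unique {P : ℕ → Prop} (hP : ∀ i j, i ≤ j → j < m → P i → P j → i = j) :
    (∑ i ∈ Finset.range m, (if P i then (1 : ZMod q) else 0)) =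
      if ∃ i < m, P i then 1 else 0 := by
  split_ifs with h
  · obtain ⟨i, hi, hPi⟩ := h
    rw [Finset.sum_eq_single i]
    · rw [if_pos hPi]
    · intro j hj hne
      rw [if_neg]
      intro hPj
      apply hne
      rcases le_total i j with h1 | h1
      · exact (hP i j h1 (Finset.mem_range.mp hj) hPi hPj).symm
      · exact hP j i h1 hi hPj hPi
    · intro h
      exact absurd (Finset.mem_range.mpr hi) h
  · apply Finset.sum_eq_zero
    intro i hi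
    rw [if_neg]
    intro hPi
    exact h ⟨i, Finset.mem_range.mp hi, hPi⟩

include hR h2C in
theorem uniqP (h : H) (i j : ℕ) (hij : i ≤ j) (hj : j < m)
    (hi : (1 : H)⁻¹ * ((h₂ ^ i)⁻¹ * h) ∈ R) (hj' : (1 : H)⁻¹ * ((h₂ ^ j)⁻¹ * h) ∈ R) : i = j := by
  have h3 : h₂ ^ (j - i) ∈ R := by
    have h4 := R.mul_mem hi (R.inv_mem hj')
    have e : (1 : H)⁻¹ * ((h₂ ^ i)⁻¹ * h) * ((1 : H)⁻¹ * ((h₂ ^ j)⁻¹ * h))⁻¹ = h₂ ^ (j - i) := by
      rw [← pow_sub_mul_pow h₂ hij, (Commute.pow_pow (Commute.refl h₂) (j - i) i).eq]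
      group
    rwa [e] at h4
  have h4 := h2C _ (hR _ h3).2.2
  have := Nat.eq_zero_of_dvd_of_lt h4 (by omega)
  omega

include hR h2C h1B h2B in
theorem uniqQ (h : H) (i j : ℕ) (hij : i ≤ j) (hj : j < m)
    (hi : (h₂ * h₁)⁻¹ * ((h₂ ^ i)⁻¹ * h) ∈ R) (hj' : (h₂ * h₁)⁻¹ * ((h₂ ^ j)⁻¹ * h) ∈ R) :
    i = j := by
  have h3 : h₁⁻¹ * h₂ ^ (j - i) * h₁ ∈ R := by
    have h4 := R.mul_mem hi (R.inv_mem hj')
    have e : (h₂ * h₁)⁻¹ * ((h₂ ^ i)⁻¹ * h) * ((h₂ * h₁)⁻¹ * ((h₂ ^ j)⁻¹ * h))⁻¹ =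
        h₁⁻¹ * h₂ ^ (j - i) * h₁ := by
      have e2 : h₂ ^ j = h₂ ^ i * h₂ ^ (j - i) := by
        rw [← pow_add]
        congr 1
        omega
      have e3 : h₂ ^ (j - i) * h₂ = h₂ * h₂ ^ (j - i) := by
        rw [← pow_succ, ← pow_succ']
      calc (h₂ * h₁)⁻¹ * ((h₂ ^ i)⁻¹ * h) * ((h₂ * h₁)⁻¹ * ((h₂ ^ j)⁻¹ * h))⁻¹
          = h₁⁻¹ * h₂⁻¹ * (h₂ ^ i)⁻¹ * h₂ ^ j * h₂ * h₁ := by group
        _ = h₁⁻¹ * h₂⁻¹ * (h₂ ^ (j - i) * h₂) * h₁ := by rw [e2]; group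
        _ = _ := by rw [e3]; group
    rwa [e] at h4
  have h4 := (hR _ h3).2.1
  rw [mul_smul, mul_smul, h1B, inv_smul_eq_iff, h1B] at h4
  have h5 := h2C _ h4
  have := Nat.eq_zero_of_dvd_of_lt h5 (by omega)
  omega

include hR h2A in
theorem P_A (h : H) (i : ℕ) (hi : (1 : H)⁻¹ * ((h₂ ^ i)⁻¹ * h) ∈ R) : h • A = A := by
  have h4 := (hR _ hi).1
  rw [inv_one, one_mul, mul_smul, inv_smul_eq_iff, pow_fix h2A] at h4
  exact h4

include hR h1A h2B in
theorem Q_A (h : H) (i : ℕ) (hi : (h₂ * h₁)⁻¹ * ((h₂ ^ i)⁻¹ * h) ∈ R) : h • A = B := by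
  have h4 := (hR _ hi).1
  rw [mul_smul, inv_smul_eq_iff, mul_smul, inv_smul_eq_iff, mul_smul, h1A, h2B, pow_fix h2B] at h4
  exact h4

include hR h2C h1B h2B in
theorem ff_eq (h : H) : ff R h₁ h₂ m q (h : H ⧸ R) =
    (if ∃ i < m, (1 : H)⁻¹ * ((h₂ ^ i)⁻¹ * h) ∈ R then 1 else 0) -
      (if ∃ i < m, (h₂ * h₁)⁻¹ * ((h₂ ^ i)⁻¹ * h) ∈ R then 1 else 0) := by
  unfold ff
  rw [Finset.sum_sub_distrib]
  simp only [dl_smul]
  rw [sum_unique (fun i j => uniqP hR h2C h i j), sum_unique (fun i j => uniqQ hR h1B h2B h2C h i j)]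

include hAB hR h2C h1A h1B h2A h2B in
theorem ff_cases (h : H) :
    (ff R h₁ h₂ m q (h : H ⧸ R) = 1 ∧ ∃ i < m, (1 : H)⁻¹ * ((h₂ ^ i)⁻¹ * h) ∈ R) ∨
    (ff R h₁ h₂ m q (h : H ⧸ R) = -1 ∧ ∃ i < m, (h₂ * h₁)⁻¹ * ((h₂ ^ i)⁻¹ * h) ∈ R) ∨
    ff R h₁ h₂ m q (h : H ⧸ R) = 0 := by
  rw [ff_eq hR h1B h2B h2C]
  by_cases h3 : ∃ i < m, (1 : H)⁻¹ * ((h₂ ^ i)⁻¹ * h) ∈ R
  · have h4 : ¬ ∃ i < m, (h₂ * h₁)⁻¹ * ((h₂ ^ i)⁻¹ * h) ∈ R := by
      rintro ⟨j, -, hj⟩
      obtain ⟨i, -, hi⟩ := h3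
      exact hAB ((P_A hR h2A h i hi).symm.trans (Q_A hR h1A h2B h j hj))
    left
    rw [if_pos h3, if_neg h4, sub_zero]
    exact ⟨rfl, h3⟩
  · by_cases h4 : ∃ i < m, (h₂ * h₁)⁻¹ * ((h₂ ^ i)⁻¹ * h) ∈ R
    · right; left
      rw [if_neg h3, if_pos h4, zero_sub]
      exact ⟨rfl, h4⟩
    · right; right
      rw [if_neg h3, if_neg h4, sub_zero]

include hAB hR h2C h1A h1B h2A h2B in
theorem ff_one (hm0 : 0 < m) : ff R h₁ h₂ m q ((1 : H) : H ⧸ R) = 1 := by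
  rw [ff_eq hR h1B h2B h2C, if_pos, if_neg, sub_zero]
  · rintro ⟨j, -, hj⟩
    have := Q_A hR h1A h2B 1 j hj
    rw [one_smul] at this
    exact hAB this
  · exact ⟨0, hm0, by simp [R.one_mem]⟩

include hAB hR h2C h1A h1B h2A h2B hm in
theorem ff_h1 (hm0 : 0 < m) : ff R h₁ h₂ m q (h₁ : H ⧸ R) = -1 := by
  rw [ff_eq hR h1B h2B h2C, if_neg, if_pos, zero_sub]
  · refine ⟨m - 1, by omega, ?_⟩
    have e : (h₂ * h₁)⁻¹ * ((h₂ ^ (m - 1))⁻¹ * h₁) = 1 := by
      have e2 : h₂ ^ (m - 1) * h₂ = 1 := by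
        rw [← pow_succ, Nat.sub_add_cancel hm0, hm]
      calc (h₂ * h₁)⁻¹ * ((h₂ ^ (m - 1))⁻¹ * h₁) = h₁⁻¹ * (h₂ ^ (m - 1) * h₂)⁻¹ * h₁ := by group
        _ = 1 := by rw [e2]; group
    rw [e]
    exact R.one_mem
  · rintro ⟨j, -, hj⟩
    have := P_A hR h2A h₁ j hj
    rw [h1A] at this
    exact hAB this.symm

include hAB hR h2C h1A h1B h2A h2B hm in
/-- **Separation.** -/
theorem ff_sep {R' : Subgroup H} (hR' : ∀ r ∈ R', r • A = A ∧ r • B = B ∧ r • C = C)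
    (hm0 : 0 < m) (hq : 16 < q) (h : H) (a b : ℕ) (ha : 1 ≤ a) (ha4 : a ≤ 8)
    (hb : 1 ≤ b) (hb4 : b ≤ 8)
    (hh : ∀ g : H, (a : ZMod q) * ff R h₁ h₂ m q (g : H ⧸ R) =
      (b : ZMod q) * ff R' h₁ h₂ m q ((g * h : H) : H ⧸ R')) : a = b ∧ h ∈ R' := by
  have hz : ∀ k : ℕ, 1 ≤ k → k ≤ 16 → (k : ZMod q) ≠ 0 := by
    intro k hk hk8 h0
    rw [ZMod.natCast_eq_zero_iff] at h0
    have := Nat.le_of_dvd (by omega) h0
    omega
  have e1 := hh 1
  rw [ff_one hAB hR h1A h1B h2A h2B h2C hm0, one_mul, mul_one] at e1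
  rcases ff_cases (q := q) hAB hR' h1A h1B h2A h2B h2C h with ⟨h3, h4⟩ | ⟨h3, -⟩ | h3
  · rw [h3, mul_one] at e1
    have hab : a = b := by
      have h5 := (ZMod.natCast_eq_natCast_iff' a b q).mp e1
      rw [Nat.mod_eq_of_lt (by omega), Nat.mod_eq_of_lt (by omega)] at h5
      exact h5
    refine ⟨hab, ?_⟩
    obtain ⟨i, hi, hPi⟩ := h4
    have e2 := hh h₁
    rw [ff_h1 hAB hR h1A h1B h2A h2B h2C hm hm0, hab] at e2
    have hb0 : (b : ZMod q) ≠ 0 := hz b hb (by omega)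
    rcases ff_cases (q := q) hAB hR' h1A h1B h2A h2B h2C (h₁ * h) with ⟨h5, -⟩ | ⟨-, h6⟩ | h5
    · exfalso
      rw [h5, mul_one] at e2
      have h7 : ((2 * b : ℕ) : ZMod q) = 0 := by
        push_cast
        linear_combination -e2
      exact hz (2 * b) (by omega) (by omega) h7
    · obtain ⟨j, hj, hQj⟩ := h6
      have h7 := (hR' _ hQj).2.1
      have h8 : h • B = B := by
        have h9 := (hR' _ hPi).2.1
        rw [inv_one, one_mul, mul_smul, inv_smul_eq_iff, pow_fix h2B] at h9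
        exact h9
      rw [mul_smul, inv_smul_eq_iff, mul_smul, inv_smul_eq_iff, mul_smul, h8, h1B, mul_smul, h1B,
        ← mul_smul, ← pow_succ] at h7
      have h9 := h2C _ h7.symm
      have h10 : h₂ ^ (j + 1) = 1 := by
        obtain ⟨c, hc⟩ := h9
        rw [hc, pow_mul, hm, one_pow]
      have h11 : h ∈ R' := by
        have e : (h₂ * h₁)⁻¹ * ((h₂ ^ j)⁻¹ * (h₁ * h)) = h := by
          calc (h₂ * h₁)⁻¹ * ((h₂ ^ j)⁻¹ * (h₁ * h)) = h₁⁻¹ * (h₂ ^ j * h₂)⁻¹ * h₁ * h := by group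
            _ = h := by rw [← pow_succ, h10]; group
        rwa [e] at hQj
      exact h11
    · exfalso
      rw [h5, mul_zero] at e2
      exact hb0 (by linear_combination -e2)
  · exfalso
    rw [h3] at e1
    have h7 : ((a + b : ℕ) : ZMod q) = 0 := by
      push_cast
      linear_combination e1
    exact hz (a + b) (by omega) (by omega) h7
  · exfalso
    rw [h3, mul_zero] at e1
    exact hz a ha (by omega) e1

end sep

end Pool.Agent.H45.MG
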