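import Pool.Agent.H45.MG.Alt
import Pool.Agent.H45.MG.Wr

/-!
# The 2-generated group `K` above `G`
-/

set_option autoImplicit false
set_option linter.unusedSectionVars false
set_option linter.style.haveILetI false

open scoped Classical BigOperators

noncomputable section

namespace Pool.Agent.H45.MG

/-- A group `K = ⟨x, y⟩` with a normal subgroup `V` of exponent `q` and subgroups `T 0, …, T 7` above
`V`, where `T 7 / V` is isomorphic to `G` and `T j = V` for `j ≠ 7`, with linear characters `Λ j` of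
`T j` whose restrictions to `V` have stabiliser `T j` and are not conjugate. -/
structure Dt (G : Type) [Group G] (q : ℕ) (K : Type) [Group K] where
  V : Subgroup K
  T : Fin 8 → Subgroup K
  hVT : ∀ j, V ≤ T j
  hTV : ∀ j, j ≠ 7 → T j ≤ V
  norm : ∀ k : K, ∀ v ∈ V, k⁻¹ * v * k ∈ V
  exp : ∀ v ∈ V, v ^ q = 1
  π : T 7 →* G
  i : G →* T 7
  hπ : ∀ g, π (i g) = g
  ker : ∀ t : T 7, π t = 1 ↔ (t : K) ∈ V
  Λ : ∀ j, T j →* ℂ
  sep : ∀ (k : K) (j j' : Fin 8),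
    (∀ (v : K) (hv : v ∈ V), Λ j ⟨v, hVT j hv⟩ = Λ j' ⟨k⁻¹ * v * k, hVT j' (norm k v hv)⟩) →
      j = j' ∧ k ∈ T j'
  x : K
  y : K
  M : ℕ
  n : ℕ
  gen : Subgroup.closure {x, y} = ⊤
  hx : x ^ 3 = 1
  hy : y ^ M = 1
  hxy : (x * y) ^ n = 1
  c1 : Nat.Coprime 42 M
  c2 : Nat.Coprime 42 n
  c3 : Nat.Coprime M n

section mk

variable {G H Y : Type} [Group G] [Finite G] [Group H] [Finite H] [MulAction H Y] (ι : G →* H)
  (h₁ h₂ : H) (q : ℕ)

/-- the subgroups of `H` -/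
def RR (j : Fin 8) : Subgroup H := if j = 7 then ι.range else ⊥

theorem RR_seven : RR ι 7 = ι.range := if_pos rfl
theorem RR_ne {j : Fin 8} (hj : j ≠ 7) : RR ι j = ⊥ := if_neg hj

/-- the points -/
abbrev Om := (j : Fin 8) × (H ⧸ RR ι j)

/-- the big wreath product -/
abbrev Bg := Wth (Multiplicative (ZMod q)) (Om ι) H

def vv (ω : Om ι) : Multiplicative (ZMod q) :=
  Multiplicative.ofAdd (dl (RR ι ω.1) q 1 ω.2 - dl (RR ι ω.1) q (h₂ * h₁) ω.2)

def xx : Bg ι q := SemidirectProduct.inr h₁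
def yy : Bg ι q := SemidirectProduct.inl (vv ι h₁ h₂ q) * SemidirectProduct.inr h₂

theorem yy_left : (yy ι h₁ h₂ q).left = vv ι h₁ h₂ q := by
  unfold yy
  simp

theorem yy_right : (yy ι h₁ h₂ q).right = h₂ := by
  unfold yy
  simp

/-- the group `K` -/
def KK : Subgroup (Bg ι q) := Subgroup.closure {xx ι h₁ q, yy ι h₁ h₂ q}

def xK : KK ι h₁ h₂ q := ⟨xx ι h₁ q, Subgroup.subset_closure (by simp)⟩
def yK : KK ι h₁ h₂ q := ⟨yy ι h₁ h₂ q, Subgroup.subset_closure (by simp)⟩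

theorem gen_K : Subgroup.closure {xK ι h₁ h₂ q, yK ι h₁ h₂ q} = ⊤ := by
  rw [eq_top_iff]
  rintro ⟨z, hz⟩ -
  have h1 : Subgroup.map (KK ι h₁ h₂ q).subtype
      (Subgroup.closure {xK ι h₁ h₂ q, yK ι h₁ h₂ q}) = KK ι h₁ h₂ q := by
    rw [MonoidHom.map_closure]
    unfold KK
    congr 1
    rw [Set.image_pair]
    rfl
  have hz' := hz
  rw [← h1] at hz'
  obtain ⟨w, hw, hwz⟩ := hz'
  have : w = ⟨z, hz⟩ := Subtype.ext hwz
  rw [← this]
  exact hw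

/-- the projection to `H` -/
def prK : KK ι h₁ h₂ q →* H := (SemidirectProduct.rightHom : Bg ι q →* H).comp (KK ι h₁ h₂ q).subtype

theorem prK_apply (k : KK ι h₁ h₂ q) : prK ι h₁ h₂ q k = k.1.right := rfl

theorem prK_surj (hgen : Subgroup.closure {h₁, h₂} = (⊤ : Subgroup H)) :
    Function.Surjective (prK ι h₁ h₂ q) := by
  rw [← MonoidHom.range_eq_top, eq_top_iff, ← hgen, Subgroup.closure_le]
  intro z hz
  rcases hz with rfl | rfl
  · exact ⟨xK ι z h₂ q, by simp [prK_apply, xK, xx]⟩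
  · exact ⟨yK ι h₁ z q, by rw [prK_apply]; exact yy_right ι h₁ z q⟩

variable {h₁ h₂ q}

theorem left_yy_pow (m : ℕ) (ω : Om ι) :
    ((yy ι h₁ h₂ q) ^ m).left ω = Multiplicative.ofAdd (ff (RR ι ω.1) h₁ h₂ m q ω.2) := by
  rw [left_pow, yy_left, yy_right]
  unfold ff vv
  rw [ofAdd_sum]
  rfl

theorem yy_pow_eq {m : ℕ} (hm : h₂ ^ m = 1) : (yy ι h₁ h₂ q) ^ m =
    SemidirectProduct.inl (fun ω => Multiplicative.ofAdd (ff (RR ι ω.1) h₁ h₂ m q ω.2)) := by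
  apply SemidirectProduct.ext
  · ext1 ω
    exact left_yy_pow ι m ω
  · rw [right_pow, yy_right, hm]
    simp

theorem inl_pow_q (F : Om ι → Multiplicative (ZMod q)) :
    (SemidirectProduct.inl F : Bg ι q) ^ q = 1 := by
  rw [← map_pow]
  have : F ^ q = 1 := by
    ext1 ω
    rw [Pi.pow_apply, Pi.one_apply]
    apply Multiplicative.toAdd.injective
    rw [toAdd_pow, toAdd_one, nsmul_eq_mul, CharP.cast_eq_zero, zero_mul]
  rw [this, map_one]

theorem yK_pow {m : ℕ} (hm : h₂ ^ m = 1) : (yK ι h₁ h₂ q) ^ (m * q) = 1 := by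
  apply Subtype.ext
  change (yy ι h₁ h₂ q) ^ (m * q) = 1
  rw [pow_mul, yy_pow_eq ι hm, inl_pow_q]

theorem xK_pow (h : h₁ ^ 3 = 1) : (xK ι h₁ h₂ q) ^ 3 = 1 := by
  apply Subtype.ext
  change (xx ι h₁ q) ^ 3 = 1
  unfold xx
  rw [← map_pow, h, map_one]

theorem xyK_pow {n : ℕ} (h : (h₁ * h₂) ^ n = 1) : (xK ι h₁ h₂ q * yK ι h₁ h₂ q) ^ n = 1 := by
  apply Subtype.ext
  change (xx ι h₁ q * yy ι h₁ h₂ q) ^ n = 1
  have hr : (xx ι h₁ q * yy ι h₁ h₂ q).right = h₁ * h₂ := by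
    rw [SemidirectProduct.mul_right, yy_right]
    simp [xx]
  apply SemidirectProduct.ext
  · ext1 ⟨j, ω⟩
    rw [left_pow, hr]
    have hl : ∀ ω' : H ⧸ RR ι j, (xx ι h₁ q * yy ι h₁ h₂ q).left ⟨j, ω'⟩ =
        Multiplicative.ofAdd (dl (RR ι j) q h₁ ω' - dl (RR ι j) q h₁ ((h₁ * h₂)⁻¹ • ω')) := by
      intro ω'
      rw [left_mul, yy_left]
      have : (xx ι h₁ q).left ⟨j, ω'⟩ = 1 := by simp [xx]
      rw [this, one_mul]
      have h2 : (xx ι h₁ q).right = h₁ := by simp [xx]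
      rw [h2]
      unfold vv
      change Multiplicative.ofAdd (dl (RR ι j) q 1 (h₁⁻¹ • ω') -
        dl (RR ι j) q (h₂ * h₁) (h₁⁻¹ • ω')) = _
      congr 1
      obtain ⟨g, rfl⟩ := QuotientGroup.mk_surjective ω'
      have key : ∀ (a b g : H), dl (RR ι j) q a (b⁻¹ • (g : H ⧸ RR ι j)) =
          dl (RR ι j) q (b * a) (g : H ⧸ RR ι j) := by
        intro a b g
        have e := dl_smul (R := RR ι j) (q := q) (b * a) 1 g
        rw [inv_one, one_smul] at e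
        rw [e, dl_smul]
        congr 2
        group
      rw [key, key, key]
      congr 1
      · rw [mul_one]
      · rw [mul_assoc]
    have e : ∏ i ∈ Finset.range n, (xx ι h₁ q * yy ι h₁ h₂ q).left (((h₁ * h₂) ^ i)⁻¹ • ⟨j, ω⟩) =
        Multiplicative.ofAdd (∑ i ∈ Finset.range n,
          (dl (RR ι j) q h₁ (((h₁ * h₂) ^ i)⁻¹ • ω) -
            dl (RR ι j) q h₁ (((h₁ * h₂) ^ (i + 1))⁻¹ • ω))) := by
      rw [ofAdd_sum]
      refine Finset.prod_congr rfl fun i _ => ?_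
      change (xx ι h₁ q * yy ι h₁ h₂ q).left ⟨j, ((h₁ * h₂) ^ i)⁻¹ • ω⟩ = _
      rw [hl]
      congr 3
      rw [← mul_smul, ← mul_inv_rev, ← pow_succ]
    rw [e, Finset.sum_range_sub', pow_zero, h, sub_self]
    rfl
  · rw [right_pow, hr, h]
    rfl

variable (h₁ h₂ q)

/-- the stabilisers -/
def TK (j : Fin 8) : Subgroup (KK ι h₁ h₂ q) := (RR ι j).comap (prK ι h₁ h₂ q)

/-- the kernel -/
def VK : Subgroup (KK ι h₁ h₂ q) := (prK ι h₁ h₂ q).ker

theorem mem_VK (k : KK ι h₁ h₂ q) : k ∈ VK ι h₁ h₂ q ↔ k.1.right = 1 := Iff.rfl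

theorem VK_le (j : Fin 8) : VK ι h₁ h₂ q ≤ TK ι h₁ h₂ q j := by
  intro k hk
  change k.1.right ∈ RR ι j
  rw [(mem_VK ι h₁ h₂ q k).mp hk]
  exact (RR ι j).one_mem

theorem TK_le {j : Fin 8} (hj : j ≠ 7) : TK ι h₁ h₂ q j ≤ VK ι h₁ h₂ q := by
  intro k hk
  rw [mem_VK]
  have h : k.1.right ∈ RR ι j := hk
  rw [RR_ne ι hj, Subgroup.mem_bot] at h
  exact h

theorem VK_norm (k : KK ι h₁ h₂ q) : ∀ v ∈ VK ι h₁ h₂ q, k⁻¹ * v * k ∈ VK ι h₁ h₂ q := by
  intro v hv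
  have hn : (VK ι h₁ h₂ q).Normal := MonoidHom.normal_ker _
  have := hn.conj_mem v hv k⁻¹
  rwa [inv_inv] at this

theorem elt_VK {v : KK ι h₁ h₂ q} (hv : v ∈ VK ι h₁ h₂ q) :
    v.1 = SemidirectProduct.inl v.1.left := by
  apply SemidirectProduct.ext
  · rfl
  · exact (mem_VK ι h₁ h₂ q v).mp hv

theorem VK_exp : ∀ v ∈ VK ι h₁ h₂ q, v ^ q = 1 := by
  intro v hv
  apply Subtype.ext
  change v.1 ^ q = 1
  rw [elt_VK ι h₁ h₂ q hv, inl_pow_q]

/-- the base point of the `j`-th orbit -/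
def bp (j : Fin 8) : Om ι := ⟨j, ((1 : H) : H ⧸ RR ι j)⟩

/-- the linear characters -/
def LamK (hq : NeZero q) (j : Fin 8) : TK ι h₁ h₂ q j →* ℂ where
  toFun k := ZMod.stdAddChar (Multiplicative.toAdd (k.1.1.left (bp ι j))) ^ (j.1 + 1)
  map_one' := by
    change ZMod.stdAddChar (Multiplicative.toAdd ((1 : Bg ι q).left _)) ^ (j.1 + 1) = 1
    rw [left_one, toAdd_one, AddChar.map_zero_eq_one, one_pow]
  map_mul' k k' := by
    change ZMod.stdAddChar (Multiplicative.toAdd ((k.1.1 * k'.1.1).left _)) ^ (j.1 + 1) = _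
    rw [left_mul]
    have : (k.1.1.right)⁻¹ • (bp ι j) = bp ι j := by
      have h1 : k.1.1.right ∈ RR ι j := k.2
      have h2 : (k.1.1.right)⁻¹ • ((1 : H) : H ⧸ RR ι j) = ((1 : H) : H ⧸ RR ι j) := by
        change (((k.1.1.right)⁻¹ * 1 : H) : H ⧸ RR ι j) = _
        rw [QuotientGroup.eq]
        simpa using h1
      exact congrArg (Sigma.mk j) h2
    rw [this, toAdd_mul, AddChar.map_add_eq_mul, mul_pow]

/-- the projection to `G` -/
def piK (hι : Function.Injective ι) : TK ι h₁ h₂ q 7 →* G :=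
  ((MonoidHom.ofInjective hι).symm : ι.range →* G).comp
    (((prK ι h₁ h₂ q).comp (TK ι h₁ h₂ q 7).subtype).codRestrict ι.range fun t => by
      rw [← RR_seven ι]
      exact t.2)

theorem piK_spec (hι : Function.Injective ι) (t : TK ι h₁ h₂ q 7) :
    ι (piK ι h₁ h₂ q hι t) = t.1.1.right := by
  have h := (MonoidHom.ofInjective hι).apply_symm_apply
    ((((prK ι h₁ h₂ q).comp (TK ι h₁ h₂ q 7).subtype).codRestrict ι.range fun t => by
      rw [← RR_seven ι]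
      exact t.2) t)
  exact congrArg Subtype.val h

theorem piK_one (hι : Function.Injective ι) (t : TK ι h₁ h₂ q 7) :
    piK ι h₁ h₂ q hι t = 1 ↔ (t : KK ι h₁ h₂ q) ∈ VK ι h₁ h₂ q := by
  rw [mem_VK, ← piK_spec ι h₁ h₂ q hι t]
  constructor
  · intro h
    rw [h, map_one]
  · intro h
    exact hι (h.trans (map_one ι).symm)

theorem piK_surj (hι : Function.Injective ι)
    (hgen : Subgroup.closure {h₁, h₂} = (⊤ : Subgroup H)) :
    Function.Surjective (piK ι h₁ h₂ q hι) := by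
  intro g
  obtain ⟨k, hk⟩ := prK_surj ι h₁ h₂ q hgen (ι g)
  refine ⟨⟨k, by
    change prK ι h₁ h₂ q k ∈ RR ι 7
    rw [RR_seven, hk]
    exact ⟨g, rfl⟩⟩, ?_⟩
  apply hι
  rw [piK_spec]
  exact hk

theorem sep_K {hq : NeZero q}
    (hgen : Subgroup.closure {h₁, h₂} = (⊤ : Subgroup H)) {m : ℕ} {A B C : Y}
    (hAB : A ≠ B) (hR : ∀ j, ∀ r ∈ RR ι j, r • A = A ∧ r • B = B ∧ r • C = C)
    (h1A : h₁ • A = B) (h1B : h₁ • B = C) (h2A : h₂ • A = A) (h2B : h₂ • B = B)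
    (h2C : ∀ j : ℕ, h₂ ^ j • C = C → m ∣ j) (hm : h₂ ^ m = 1) (hm0 : 0 < m) (hq8 : 16 < q)
    (k : KK ι h₁ h₂ q) (j j' : Fin 8)
    (h : ∀ (v : KK ι h₁ h₂ q) (hv : v ∈ VK ι h₁ h₂ q),
      LamK ι h₁ h₂ q hq j ⟨v, VK_le ι h₁ h₂ q j hv⟩ =
        LamK ι h₁ h₂ q hq j' ⟨k⁻¹ * v * k, VK_le ι h₁ h₂ q j' (VK_norm ι h₁ h₂ q k v hv)⟩) :
    j = j' ∧ k ∈ TK ι h₁ h₂ q j' := by
  suffices hs : j.1 + 1 = j'.1 + 1 ∧ k.1.right ∈ RR ι j' from
    ⟨Fin.ext (by omega), hs.2⟩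
  refine ff_sep hAB (hR j) h1A h1B h2A h2B h2C hm (hR j') hm0 hq8 k.1.right (j.1 + 1) (j'.1 + 1)
    (by omega) (by omega) (by omega) (by omega) fun g => ?_
  obtain ⟨k₀, hk₀⟩ := prK_surj ι h₁ h₂ q hgen g
  rw [prK_apply] at hk₀
  set F : Om ι → Multiplicative (ZMod q) :=
    fun ω => Multiplicative.ofAdd (ff (RR ι ω.1) h₁ h₂ m q ω.2) with hF
  have hy0 : ((yK ι h₁ h₂ q) ^ m).1 = SemidirectProduct.inl F := yy_pow_eq ι hm
  have hv0 : (k₀⁻¹ * (yK ι h₁ h₂ q) ^ m * k₀ : KK ι h₁ h₂ q).1 =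
      SemidirectProduct.inl (fun ω => F (g • ω)) := by
    change k₀.1⁻¹ * ((yK ι h₁ h₂ q) ^ m).1 * k₀.1 = _
    rw [hy0, conj_inl_comm, hk₀]
  have hv1 : (k⁻¹ * (k₀⁻¹ * (yK ι h₁ h₂ q) ^ m * k₀) * k : KK ι h₁ h₂ q).1 =
      SemidirectProduct.inl (fun ω => F (g • k.1.right • ω)) := by
    change k.1⁻¹ * (k₀⁻¹ * (yK ι h₁ h₂ q) ^ m * k₀ : KK ι h₁ h₂ q).1 * k.1 = _
    rw [hv0, conj_inl_comm]
  have mem : k₀⁻¹ * (yK ι h₁ h₂ q) ^ m * k₀ ∈ VK ι h₁ h₂ q := by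
    rw [mem_VK, hv0, SemidirectProduct.right_inl]
  have e := h _ mem
  have e1 : ∀ (j : Fin 8) (z : KK ι h₁ h₂ q) (hz : z ∈ TK ι h₁ h₂ q j)
      (E : Om ι → Multiplicative (ZMod q)) (_ : z.1 = SemidirectProduct.inl E),
      LamK ι h₁ h₂ q hq j ⟨z, hz⟩ =
        ZMod.stdAddChar (Multiplicative.toAdd (E (bp ι j))) ^ (j.1 + 1) := by
    intro j z hz E hE
    change ZMod.stdAddChar (Multiplicative.toAdd (z.1.left _)) ^ (j.1 + 1) = _
    rw [hE, SemidirectProduct.left_inl]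
  rw [e1 j _ _ _ hv0, e1 j' _ _ _ hv1, ← AddChar.map_nsmul_eq_pow,
    ← AddChar.map_nsmul_eq_pow] at e
  have e2 := ZMod.injective_stdAddChar e
  rw [nsmul_eq_mul, nsmul_eq_mul] at e2
  have e3 : ∀ (z : H) (j : Fin 8), z • bp ι j = ⟨j, (z : H ⧸ RR ι j)⟩ := by
    intro z j
    have : z • ((1 : H) : H ⧸ RR ι j) = (z : H ⧸ RR ι j) := by
      change ((z * 1 : H) : H ⧸ RR ι j) = _
      rw [mul_one]
    exact congrArg (Sigma.mk j) this
  rw [← mul_smul, e3, e3] at e2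
  exact e2

end mk

theorem exists_section {T G : Type} [Group T] [Finite T] [Group G] [Finite G] (π : T →* G)
    (hπ : Function.Surjective π) (q : ℕ) [hq : Fact q.Prime] (hk : ∀ t, π t = 1 → t ^ q = 1)
    (hqG : ¬ q ∣ Nat.card G) : ∃ i : G →* T, ∀ g, π (i g) = g := by
  have h1 : IsPGroup q π.ker := by
    intro t
    refine ⟨1, ?_⟩
    rw [pow_one]
    exact Subtype.ext (hk t.1 t.2)
  obtain ⟨k, hk⟩ := IsPGroup.iff_card.mp h1
  have h2 : π.ker.index = Nat.card G := by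
    rw [Subgroup.index_ker]
    rw [MonoidHom.range_eq_top.mpr hπ, Subgroup.card_top]
  have h3 : Nat.Coprime (Nat.card π.ker) π.ker.index := by
    rw [hk, h2]
    exact Nat.Coprime.pow_left k ((Nat.Prime.coprime_iff_not_dvd hq.out).mpr hqG)
  obtain ⟨C, hC⟩ := Subgroup.exists_right_complement'_of_coprime h3
  have hb : Function.Bijective (π.comp C.subtype) := by
    constructor
    · rw [injective_iff_map_eq_one]
      intro c hc
      have h4 : (c : T) ∈ π.ker ⊓ C := ⟨hc, c.2⟩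
      rw [hC.disjoint.eq_bot, Subgroup.mem_bot] at h4
      exact Subtype.ext h4
    · intro g
      obtain ⟨t, rfl⟩ := hπ g
      obtain ⟨⟨a, b⟩, hab⟩ := hC.2 t
      refine ⟨b, ?_⟩
      have : (a : T) * b = t := hab
      rw [← this, map_mul, show π a = 1 from a.2, one_mul]
      rfl
  refine ⟨C.subtype.comp (MulEquiv.ofBijective _ hb).symm.toMonoidHom, fun g => ?_⟩
  exact (MulEquiv.ofBijective _ hb).apply_symm_apply g

/-- **Existence.** -/
theorem exists_Dt (G : Type) [Group G] [Finite G] (p : ℕ) :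
    ∃ (q : ℕ) (_ : Fact q.Prime) (_ : p < q) (K : Type) (_ : Group K) (_ : Finite K),
      Nonempty (Dt G q K) := by
  obtain ⟨m, H, _, _, X, _, ι, h₁, h₂, A, B, C, hmN, hι, hAB, hfix, h1A, h1B, h2A, h2B, h2C, hh1,
    hm, hn, hgen, c1, c2, c3⟩ := exists_embedding G 1
  obtain ⟨q, hqN, hq⟩ := Nat.exists_infinite_primes (m + Nat.card G + p + 50)
  haveI : Fact q.Prime := ⟨hq⟩
  haveI hq0 : NeZero q := ⟨hq.ne_zero⟩
  have hcG : 0 < Nat.card G := Nat.card_pos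
  have hR : ∀ j, ∀ r ∈ RR ι j, r • A = A ∧ r • B = B ∧ r • C = C := by
    intro j r hr
    by_cases hj : j = 7
    · subst hj
      rw [RR_seven] at hr
      obtain ⟨g, rfl⟩ := hr
      exact hfix g
    · rw [RR_ne ι hj, Subgroup.mem_bot] at hr
      rw [hr]
      simp
  have hker : ∀ t : TK ι h₁ h₂ q 7, piK ι h₁ h₂ q hι t = 1 → t ^ q = 1 := by
    intro t ht
    apply Subtype.ext
    exact VK_exp ι h₁ h₂ q _ ((piK_one ι h₁ h₂ q hι t).mp ht)
  haveI : Finite (KK ι h₁ h₂ q) := inferInstance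
  obtain ⟨i, hi⟩ := exists_section (piK ι h₁ h₂ q hι) (piK_surj ι h₁ h₂ q hι hgen) q hker
    (fun h => by
      have := Nat.le_of_dvd hcG h
      omega)
  have hqm : ∀ k, 0 < k → k < q → Nat.Coprime q k := fun k hk hkq =>
    (Nat.Prime.coprime_iff_not_dvd hq).mpr (fun h => by
      have := Nat.le_of_dvd hk h
      omega)
  refine ⟨q, ⟨hq⟩, by omega, KK ι h₁ h₂ q, inferInstance, inferInstance,
    ⟨{ V := VK ι h₁ h₂ q
       T := TK ι h₁ h₂ q
       hVT := VK_le ι h₁ h₂ q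
       hTV := fun j hj => TK_le ι h₁ h₂ q hj
       norm := VK_norm ι h₁ h₂ q
       exp := VK_exp ι h₁ h₂ q
       π := piK ι h₁ h₂ q hι
       i := i
       hπ := hi
       ker := piK_one ι h₁ h₂ q hι
       Λ := LamK ι h₁ h₂ q hq0
       sep := sep_K ι h₁ h₂ q hgen hAB hR h1A h1B h2A h2B h2C hm (by omega) (by omega)
       x := xK ι h₁ h₂ q
       y := yK ι h₁ h₂ q
       M := m * q
       n := m + 2
       gen := gen_K ι h₁ h₂ q
       hx := xK_pow ι hh1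
       hy := yK_pow ι hm
       hxy := xyK_pow ι hn
       c1 := Nat.Coprime.mul_right c1 (hqm 42 (by omega) (by omega)).symm
       c2 := c2
       c3 := Nat.Coprime.mul_left c3 (hqm (m + 2) (by omega) (by omega)) }⟩⟩

end Pool.Agent.H45.MG
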